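import Pool.Agent.TH447.DG.Param

set_option autoImplicit false
set_option linter.unusedSectionVars false
open Classical Finset

/-! Asymptotic consequences. -/

namespace Pool.Agent.TH447.DG

/-- linear range of the logarithm of the maximum degree -/
theorem asym_linear (δ : ℝ) (hδ : 0 < δ) :
    ∃ c : ℝ, 0 < c ∧ ∃ d₀ : ℕ, ∀ d : ℕ, d₀ ≤ d → ∀ (V : Type) [Fintype V] (G : SimpleGraph V),
      G.CliqueFree 3 →
      (∀ S : Finset V, S.Nonempty → ∃ v ∈ S, (G.neighborSet v ∩ (S : Set V)).ncard ≤ d) →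
      (∀ v : V, ((G.neighborSet v).ncard : ℝ) ≤ Real.exp (c * d)) →
      ∃ n : ℕ, G.Colorable n ∧ (n : ℝ) ≤ δ * d := by
  set s0 : ℝ := 128 / δ with hs0
  have hs0p : 0 < s0 := by positivity
  set k : ℕ := ⌈s0 * Real.exp (8 * (1 + s0))⌉₊ with hk
  have hk1 : s0 * Real.exp (8 * (1 + s0)) ≤ k := Nat.le_ceil _
  have hkR : (0 : ℝ) < k := lt_of_lt_of_le (by positivity) hk1
  have hk0 : 0 < k := by exact_mod_cast hkR
  have hs : s0 ≤ k * Real.exp (-(8 * (1 + s0))) := by
    rw [Real.exp_neg, ← div_eq_mul_inv, le_div_iff₀ (Real.exp_pos _)]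
    exact hk1
  set A : ℝ := s0 / (128 * k ^ 2 * Real.exp (8 * k) ^ 2) with hA
  have hA0 : 0 < A := by positivity
  set c : ℝ := A * δ / (16 * (2 * k + 1)) with hc
  have hc0 : 0 < c := by positivity
  set D0 : ℝ := 8 / c ^ 2 + 8 * (2 + A) / (A * δ) + 4 * (2 * k * Real.exp (8 * k) + 1) / δ + 8 / δ +
    (32 / δ + 4) / δ + 1 with hD0
  refine ⟨c, hc0, ⌈D0⌉₊, fun d hd V _ G htri hG hΔ => ?_⟩
  have hdR : D0 ≤ d := (Nat.le_ceil _).trans (by exact_mod_cast hd)
  have q1 : 0 < 8 / c ^ 2 := by positivity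
  have q2 : 0 < 8 * (2 + A) / (A * δ) := by positivity
  have q3 : 0 < 4 * (2 * k * Real.exp (8 * k) + 1) / δ := by positivity
  have q4 : 0 < 8 / δ := by positivity
  have q5 : 0 < (32 / δ + 4) / δ := by positivity
  have h1 : 8 / c ^ 2 ≤ d := by linarith
  have h2 : 8 * (2 + A) / (A * δ) ≤ d := by linarith
  have h3 : 4 * (2 * k * Real.exp (8 * k) + 1) / δ ≤ d := by linarith
  have h4 : 8 / δ ≤ d := by linarith
  have h5 : (32 / δ + 4) / δ ≤ d := by linarith
  have h6 : (1 : ℝ) ≤ d := by linarith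
  rw [div_le_iff₀ (by positivity)] at h1 h2 h3 h4 h5
  set d₁ : ℕ := ⌊δ * d / 4⌋₊ with hd₁
  have hd₁u : (d₁ : ℝ) ≤ δ * d / 4 := Nat.floor_le (by positivity)
  have hd₁l : δ * d / 4 - 1 < d₁ := by
    have := Nat.lt_floor_add_one (δ * d / 4); linarith
  set Δ : ℕ := ⌊Real.exp (c * d)⌋₊ with hΔd
  have hΔu : (Δ : ℝ) ≤ Real.exp (c * d) := Nat.floor_le (Real.exp_pos _).le
  obtain ⟨n, hn1, hn2⟩ := colour_general G d d₁ k Δ s0 htri hG
    (fun v => by
      rw [hΔd, Nat.le_floor_iff (Real.exp_pos _).le]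
      exact hΔ v)
    hk0 hs0p hs (by nlinarith)
    (by
      have e1 : s0 * (d₁ : ℝ) / (128 * k ^ 2 * Real.exp (8 * k) ^ 2) = A * d₁ := by
        rw [hA]; ring
      rw [e1]
      have e2 : 2 * ((d : ℝ) + 1) ≤ Real.exp (c * d) := by
        have := Real.quadratic_le_exp_of_nonneg (by positivity : 0 ≤ c * d)
        have h8 : 8 * (d : ℝ) ≤ (c * d) ^ 2 := by
          calc 8 * (d : ℝ) ≤ (d * c ^ 2) * d := mul_le_mul_of_nonneg_right h1 (by linarith)
            _ = (c * d) ^ 2 := by ring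
        have h9 : 0 ≤ c * (d : ℝ) := by positivity
        linarith
      have e3 : (((d + 1) * (Δ + 1) : ℕ) : ℝ) ≤ Real.exp (2 * c * d) := by
        push_cast
        have e4 : (Δ : ℝ) + 1 ≤ 2 * Real.exp (c * d) := by
          have : 1 ≤ Real.exp (c * d) := Real.one_le_exp (by positivity)
          linarith
        calc ((d : ℝ) + 1) * (Δ + 1) ≤ (d + 1) * (2 * Real.exp (c * d)) :=
              mul_le_mul_of_nonneg_left e4 (by positivity)
          _ = (2 * (d + 1)) * Real.exp (c * d) := by ring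
          _ ≤ Real.exp (c * d) * Real.exp (c * d) :=
              mul_le_mul_of_nonneg_right e2 (Real.exp_pos _).le
          _ = Real.exp (2 * c * d) := by rw [← Real.exp_add]; congr 1; ring
      have e5 : (((d + 1) * (Δ + 1) : ℕ) : ℝ) ^ (2 * k + 1) ≤ Real.exp (A * δ * d / 8) := by
        calc (((d + 1) * (Δ + 1) : ℕ) : ℝ) ^ (2 * k + 1) ≤ Real.exp (2 * c * d) ^ (2 * k + 1) :=
              pow_le_pow_left₀ (by positivity) e3 _
          _ = Real.exp (A * δ * d / 8) := by
              rw [← Real.exp_nat_mul]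
              congr 1
              rw [hc]; push_cast; field_simp; ring
      have e6 : (4 : ℝ) ≤ Real.exp 2 := by
        have := Real.quadratic_le_exp_of_nonneg (by norm_num : (0 : ℝ) ≤ 2)
        linarith
      calc 4 * Real.exp (-(A * d₁)) * (((d + 1) * (Δ + 1) : ℕ) : ℝ) ^ (2 * k + 1)
          ≤ Real.exp 2 * Real.exp (-(A * d₁)) * Real.exp (A * δ * d / 8) := by
            apply mul_le_mul _ e5 (by positivity) (by positivity)
            exact mul_le_mul_of_nonneg_right e6 (Real.exp_pos _).le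
        _ = Real.exp (2 - A * d₁ + A * δ * d / 8) := by
            rw [← Real.exp_add, ← Real.exp_add]; congr 1
        _ ≤ 1 := by
            rw [Real.exp_le_one_iff]
            have := mul_lt_mul_of_pos_left hd₁l hA0
            nlinarith)
  refine ⟨n, hn1, hn2.trans ?_⟩
  have f1 : 32 * (d : ℝ) / s0 = δ * d / 4 := by
    rw [hs0]; field_simp; ring
  have hd₁g : δ * d / 8 ≤ d₁ := by linarith
  have hd₁p : (0 : ℝ) < d₁ := lt_of_lt_of_le (by positivity) hd₁g
  have f2 : 2 * (d : ℝ) / d₁ ≤ 16 / δ := by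
    rw [div_le_div_iff₀ hd₁p hδ]
    linarith
  have f3 : 32 / δ = 2 * (16 / δ) := by ring
  linarith

/-- polynomial range of the logarithm of the maximum degree -/
theorem asym_poly (ε : ℝ) (hε : 0 < ε) :
    ∃ d₀ : ℕ, ∀ d : ℕ, d₀ ≤ d → ∀ (V : Type) [Fintype V] (G : SimpleGraph V),
      G.CliqueFree 3 →
      (∀ S : Finset V, S.Nonempty → ∃ v ∈ S, (G.neighborSet v ∩ (S : Set V)).ncard ≤ d) →
      (∀ v : V, ((G.neighborSet v).ncard : ℝ) ≤ Real.exp ((d : ℝ) ^ (1 - ε))) →
      0 < Real.log (Real.log d) ∧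
      ∃ n : ℕ, G.Colorable n ∧ (n : ℝ) ≤ 1025 * d / Real.log (Real.log d) := by
  set η : ℝ := min ε (1 / 2) with hη
  have hη0 : 0 < η := lt_min hε (by norm_num)
  have hη1 : η ≤ 1 / 2 := min_le_right _ _
  have hηε : η ≤ ε := min_le_left _ _
  set Y : ℝ := 1000 / η + Real.exp 32 with hY
  have hY1 : 1000 / η ≤ Y := by have := Real.exp_pos 32; linarith
  have hY2 : Real.exp 32 ≤ Y := by have : 0 < 1000 / η := by positivity
                                   linarith
  have hY2000 : 2000 ≤ Y := by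
    refine le_trans ?_ hY1
    rw [le_div_iff₀ hη0]; linarith
  refine ⟨⌈Real.exp (Y ^ 2)⌉₊, fun d hd V _ G htri hG hΔ => ?_⟩
  have hdR : Real.exp (Y ^ 2) ≤ d := (Nat.le_ceil _).trans (by exact_mod_cast hd)
  have hd0 : (0 : ℝ) < d := lt_of_lt_of_le (Real.exp_pos _) hdR
  set x : ℝ := Real.log d with hx
  have hxY : Y ^ 2 ≤ x := by
    rw [hx, Real.le_log_iff_exp_le hd0]; exact hdR
  have hdx : (d : ℝ) = Real.exp x := by rw [hx, Real.exp_log hd0]
  set y : ℝ := Real.sqrt x with hy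
  have hx0 : 0 ≤ x := le_trans (by positivity) hxY
  have hyx : y ^ 2 = x := Real.sq_sqrt hx0
  have hyY : Y ≤ y := Real.le_sqrt_of_sq_le hxY
  have hy2000 : 2000 ≤ y := hY2000.trans hyY
  have hy0 : 0 < y := by linarith
  have hyη : 1000 ≤ η * y := by
    have := hY1.trans hyY
    rw [div_le_iff₀ hη0] at this
    linarith
  have hηy2 : 1000 * y ≤ η * y ^ 2 := by
    calc 1000 * y ≤ η * y * y := mul_le_mul_of_nonneg_right hyη hy0.le
      _ = η * y ^ 2 := by ring
  have hyy : 2000 * y ≤ y ^ 2 := by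
    calc 2000 * y ≤ y * y := mul_le_mul_of_nonneg_right hy2000 hy0.le
      _ = y ^ 2 := by ring
  have hηy3 : η * y ^ 2 ≤ 1 / 2 * y ^ 2 := mul_le_mul_of_nonneg_right hη1 (sq_nonneg y)
  set t : ℝ := Real.log y with ht
  have hyt : y = Real.exp t := by rw [ht, Real.exp_log hy0]
  have ht32 : 32 ≤ t := by
    rw [ht, Real.le_log_iff_exp_le hy0]; exact hY2.trans hyY
  have hll : Real.log x = 2 * t := by
    rw [← hyx, Real.log_pow]; push_cast; rw [ht]
  have hty : t ≤ y := by
    rw [hyt]; have := Real.add_one_le_exp t; linarith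
  set s0 : ℝ := t / 16 with hs0
  have hs0p : 0 < s0 := by rw [hs0]; linarith
  set k : ℕ := ⌈y⌉₊ with hk
  have hk1 : y ≤ k := Nat.le_ceil _
  have hk2 : (k : ℝ) < y + 1 := Nat.ceil_lt_add_one hy0.le
  have hk3 : (k : ℝ) ≤ 2 * y := by linarith
  have hkR : (0 : ℝ) < k := by linarith
  have hk0 : 0 < k := by exact_mod_cast hkR
  have hs : s0 ≤ k * Real.exp (-(8 * (1 + s0))) := by
    calc s0 ≤ Real.exp (t / 2 - 8) := by
          have := Real.add_one_le_exp (t / 2 - 8)
          rw [hs0]; linarith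
      _ = y * Real.exp (-(8 * (1 + s0))) := by
          rw [hyt, ← Real.exp_add]; congr 1; rw [hs0]; ring
      _ ≤ k * Real.exp (-(8 * (1 + s0))) := mul_le_mul_of_nonneg_right hk1 (Real.exp_pos _).le
  set X1 : ℝ := Real.exp (y ^ 2 * (1 - η / 4)) with hX1
  set d₁ : ℕ := ⌈X1⌉₊ with hd₁
  have hX1p : 0 < X1 := Real.exp_pos _
  have hd₁l : X1 ≤ d₁ := Nat.le_ceil _
  have hd₁u : (d₁ : ℝ) < X1 + 1 := Nat.ceil_lt_add_one hX1p.le
  have hX11 : 1 ≤ X1 := Real.one_le_exp (by
    have : 0 ≤ 1 - η / 4 := by linarith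
    positivity)
  have hsmall : Real.exp (20 * y) ≤ X1 := by
    apply Real.exp_le_exp.mpr
    have e : y ^ 2 * (1 - η / 4) = y ^ 2 - η * y ^ 2 / 4 := by ring
    rw [e]; linarith
  have hke : (k : ℝ) ≤ Real.exp k := by have := Real.add_one_le_exp (k : ℝ); linarith
  set E : ℝ := Real.exp (y ^ 2 * (1 - η)) with hE
  set Δ : ℕ := ⌊Real.exp E⌋₊ with hΔd
  have hE1 : 2 + y ^ 2 ≤ 2 * E := by
    have h1 : y ^ 2 / 2 + 1 ≤ Real.exp (y ^ 2 / 2) := Real.add_one_le_exp _
    have h2 : Real.exp (y ^ 2 / 2) ≤ E := Real.exp_le_exp.mpr (by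
      have e : y ^ 2 * (1 - η) = y ^ 2 - η * y ^ 2 := by ring
      rw [e]; linarith)
    linarith
  have hE0 : 0 < E := Real.exp_pos _
  have hdeg : Real.exp ((d : ℝ) ^ (1 - ε)) ≤ Real.exp E := by
    apply Real.exp_le_exp.mpr
    rw [Real.rpow_def_of_pos hd0, ← hx, hE]
    apply Real.exp_le_exp.mpr
    rw [hyx]
    apply mul_le_mul_of_nonneg_left _ hx0
    linarith
  have hΔu : (Δ : ℝ) ≤ Real.exp E := Nat.floor_le (Real.exp_pos _).le
  obtain ⟨n, hn1, hn2⟩ := colour_general G d d₁ k Δ s0 htri hG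
    (fun v => by
      rw [hΔd, Nat.le_floor_iff (Real.exp_pos _).le]
      exact (hΔ v).trans hdeg)
    hk0 hs0p hs
    (by
      refine le_trans ?_ (hsmall.trans hd₁l)
      calc 2 * (k : ℝ) * Real.exp (8 * k) ≤ Real.exp (2 * k) * Real.exp (8 * k) := by
            apply mul_le_mul_of_nonneg_right _ (Real.exp_pos _).le
            have := Real.add_one_le_exp (2 * (k : ℝ)); linarith
        _ = Real.exp (10 * k) := by rw [← Real.exp_add]; congr 1; ring
        _ ≤ Real.exp (20 * y) := Real.exp_le_exp.mpr (by linarith))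
    (by
      set A : ℝ := s0 * (d₁ : ℝ) / (128 * k ^ 2 * Real.exp (8 * k) ^ 2) with hA
      have e5 : (128 : ℝ) ≤ Real.exp 5 := by
        have h1 : (2.7 : ℝ) ≤ Real.exp 1 := by
          have := Real.exp_one_gt_d9; linarith
        have h2 : Real.exp 5 = Real.exp 1 ^ 5 := by
          rw [← Real.exp_nat_mul]; norm_num
        rw [h2]
        calc (128 : ℝ) ≤ 2.7 ^ 5 := by norm_num
          _ ≤ Real.exp 1 ^ 5 := pow_le_pow_left₀ (by norm_num) h1 5
      have e6 : 128 * (k : ℝ) ^ 2 * Real.exp (8 * k) ^ 2 ≤ Real.exp (46 * y) := by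
        calc 128 * (k : ℝ) ^ 2 * Real.exp (8 * k) ^ 2
            ≤ Real.exp 5 * Real.exp k ^ 2 * Real.exp (8 * k) ^ 2 := by
              apply mul_le_mul_of_nonneg_right _ (by positivity)
              apply mul_le_mul e5 (pow_le_pow_left₀ hkR.le hke 2) (by positivity) (Real.exp_pos _).le
          _ = Real.exp (5 + 18 * k) := by
              rw [← Real.exp_nat_mul, ← Real.exp_nat_mul, ← Real.exp_add, ← Real.exp_add]
              congr 1; push_cast; ring
          _ ≤ Real.exp (46 * y) := Real.exp_le_exp.mpr (by linarith)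
      have e7 : Real.exp (y ^ 2 * (1 - η / 2)) ≤ A := by
        rw [hA, le_div_iff₀ (by positivity)]
        calc Real.exp (y ^ 2 * (1 - η / 2)) * (128 * (k : ℝ) ^ 2 * Real.exp (8 * k) ^ 2)
            ≤ Real.exp (y ^ 2 * (1 - η / 2)) * Real.exp (46 * y) :=
              mul_le_mul_of_nonneg_left e6 (Real.exp_pos _).le
          _ = Real.exp (y ^ 2 * (1 - η / 2) + 46 * y) := by rw [← Real.exp_add]
          _ ≤ X1 := Real.exp_le_exp.mpr (by
              have e : y ^ 2 * (1 - η / 4) = y ^ 2 - η * y ^ 2 / 4 := by ring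
              have e' : y ^ 2 * (1 - η / 2) = y ^ 2 - η * y ^ 2 / 2 := by ring
              rw [e, e']; linarith)
          _ ≤ d₁ := hd₁l
          _ ≤ s0 * d₁ := by
              have h1 : 1 ≤ s0 := by rw [hs0]; linarith
              have h2 : (0 : ℝ) ≤ d₁ := by positivity
              have := mul_le_mul_of_nonneg_right h1 h2
              linarith
      have e8 : (2 : ℝ) ≤ Real.exp 1 := by have := Real.exp_one_gt_d9; linarith
      have e9 : (((d + 1) * (Δ + 1) : ℕ) : ℝ) ≤ Real.exp (3 * E) := by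
        push_cast
        have h1 : (d : ℝ) + 1 ≤ Real.exp (1 + y ^ 2) := by
          have h2 : (1 : ℝ) ≤ d := by
            rw [hdx]; exact Real.one_le_exp hx0
          calc (d : ℝ) + 1 ≤ 2 * d := by linarith
            _ ≤ Real.exp 1 * Real.exp (y ^ 2) := by
                rw [hyx, ← hdx]
                exact mul_le_mul_of_nonneg_right e8 hd0.le
            _ = Real.exp (1 + y ^ 2) := by rw [← Real.exp_add]
        have h3 : (Δ : ℝ) + 1 ≤ Real.exp (1 + E) := by
          have h4 : 1 ≤ Real.exp E := Real.one_le_exp hE0.le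
          calc (Δ : ℝ) + 1 ≤ 2 * Real.exp E := by linarith
            _ ≤ Real.exp 1 * Real.exp E := mul_le_mul_of_nonneg_right e8 (Real.exp_pos _).le
            _ = Real.exp (1 + E) := by rw [← Real.exp_add]
        calc ((d : ℝ) + 1) * (Δ + 1) ≤ Real.exp (1 + y ^ 2) * Real.exp (1 + E) :=
              mul_le_mul h1 h3 (by positivity) (Real.exp_pos _).le
          _ = Real.exp (2 + y ^ 2 + E) := by rw [← Real.exp_add]; congr 1; ring
          _ ≤ Real.exp (3 * E) := Real.exp_le_exp.mpr (by linarith)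
      have e10 : (4 : ℝ) ≤ Real.exp 2 := by
        have := Real.quadratic_le_exp_of_nonneg (by norm_num : (0 : ℝ) ≤ 2)
        linarith
      have e11 : 2 + 3 * E * (2 * k + 1) ≤ Real.exp (y ^ 2 * (1 - η / 2)) := by
        have h1 : (2 * (k : ℝ) + 1) ≤ 5 * y := by linarith
        have h2 : 3 * E * (2 * k + 1) ≤ 3 * E * (5 * y) :=
          mul_le_mul_of_nonneg_left h1 (by positivity)
        have h3 : 1 ≤ E := Real.one_le_exp (by
          have : 0 ≤ 1 - η := by linarith
          positivity)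
        have h4 : 2 ≤ y * E := by
          have := mul_le_mul (by linarith : (2 : ℝ) ≤ y) h3 (by norm_num) hy0.le
          linarith
        have h5 : 16 * y ≤ Real.exp (16 * y) := by
          have := Real.add_one_le_exp (16 * y); linarith
        calc 2 + 3 * E * (2 * k + 1) ≤ y * E + 3 * E * (5 * y) := add_le_add h4 h2
          _ = (16 * y) * E := by ring
          _ ≤ Real.exp (16 * y) * E := mul_le_mul_of_nonneg_right h5 hE0.le
          _ = Real.exp (16 * y + y ^ 2 * (1 - η)) := by rw [hE, ← Real.exp_add]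
          _ ≤ Real.exp (y ^ 2 * (1 - η / 2)) := Real.exp_le_exp.mpr (by
              have e : y ^ 2 * (1 - η) = y ^ 2 - η * y ^ 2 := by ring
              have e' : y ^ 2 * (1 - η / 2) = y ^ 2 - η * y ^ 2 / 2 := by ring
              rw [e, e']; linarith)
      calc 4 * Real.exp (-A) * (((d + 1) * (Δ + 1) : ℕ) : ℝ) ^ (2 * k + 1)
          ≤ Real.exp 2 * Real.exp (-A) * Real.exp (3 * E) ^ (2 * k + 1) := by
            apply mul_le_mul _ (pow_le_pow_left₀ (by positivity) e9 _) (by positivity) (by positivity)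
            exact mul_le_mul_of_nonneg_right e10 (Real.exp_pos _).le
        _ = Real.exp (2 + 3 * E * (2 * k + 1) - A) := by
            rw [← Real.exp_nat_mul, ← Real.exp_add, ← Real.exp_add]
            congr 1; push_cast; ring
        _ ≤ 1 := by
            rw [Real.exp_le_one_iff]
            linarith)
  have hll0 : 0 < Real.log x := by rw [hll]; linarith
  refine ⟨hll0, n, hn1, hn2.trans ?_⟩
  rw [hll]
  have f1 : 32 * (d : ℝ) / s0 = 1024 * d / (2 * t) := by
    rw [hs0]; field_simp; ring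
  have f2 : 2 * (d : ℝ) / d₁ ≤ 2 * X1 := by
    have hd₁p : (0 : ℝ) < d₁ := lt_of_lt_of_le hX1p hd₁l
    rw [div_le_iff₀ hd₁p]
    have h1 : (d : ℝ) ≤ X1 * X1 := by
      rw [hdx, hX1, ← Real.exp_add]
      apply Real.exp_le_exp.mpr
      rw [← hyx]
      have e : y ^ 2 * (1 - η / 4) = y ^ 2 - η * y ^ 2 / 4 := by ring
      rw [e]; linarith
    have h2 : X1 * X1 ≤ X1 * d₁ := mul_le_mul_of_nonneg_left hd₁l hX1p.le
    linarith
  have f3 : 6 * X1 ≤ d / (2 * t) := by
    rw [le_div_iff₀ (by linarith)]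
    calc 6 * X1 * (2 * t) = (12 * t) * X1 := by ring
      _ ≤ Real.exp (12 * y) * X1 := by
          apply mul_le_mul_of_nonneg_right _ hX1p.le
          have := Real.add_one_le_exp (12 * y); linarith
      _ = Real.exp (12 * y + y ^ 2 * (1 - η / 4)) := by rw [hX1, ← Real.exp_add]
      _ ≤ Real.exp (y ^ 2) := Real.exp_le_exp.mpr (by
          have e : y ^ 2 * (1 - η / 4) = y ^ 2 - η * y ^ 2 / 4 := by ring
          rw [e]; linarith)
      _ = d := by rw [hyx, ← hdx]
  have f4 : 1025 * (d : ℝ) / (2 * t) = 1024 * d / (2 * t) + d / (2 * t) := by ring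
  rw [f4, f1]
  linarith

end Pool.Agent.TH447.DG
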