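import Pool.Agent.TH447.DG.Est2
import Pool.Agent.Helper635.LLL

set_option autoImplicit false
set_option linter.unusedSectionVars false
open Classical Finset

/-! Many independent copies cover half of every neighbourhood. -/

namespace Pool.Agent.TH447.DG

variable {V : Type} [Fintype V]
variable {H : V → Finset V} {r : V → ℕ} {d k N : ℕ} {κ T : ℝ} {F : ℕ → ℝ}

/-- indicator -/
noncomputable def ind (p : Prop) : ℝ := if p then 1 else 0

lemma ind_pos {p : Prop} (h : p) : ind p = 1 := if_pos h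
lemma ind_neg {p : Prop} (h : ¬ p) : ind p = 0 := if_neg h
lemma ind_nonneg (p : Prop) : 0 ≤ ind p := by
  unfold ind; split_ifs <;> norm_num

lemma mem_sum' {C : Type} [Fintype C] (z : V) (f : (V → C) → ℝ) (L : Finset C)
    (hf : ∀ ω c, f (Function.update ω z c) = f ω) :
    (Fintype.card C : ℝ) * ∑ ω, f ω * ind (ω z ∈ L) = ∑ ω, f ω * (L.card : ℝ) := by
  have h1 := mem_sum (C := C) z f (fun _ => L) hf (fun _ _ => rfl)
  rw [← h1]
  congr 1
  refine Finset.sum_congr rfl fun ω _ => ?_
  by_cases h : ω z ∈ L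
  · rw [ind_pos h, if_pos h]
  · rw [ind_neg h, if_neg h]

/-- counting a fixed event at one coordinate -/
lemma one_coord {C : Type} [Fintype C] (u : V) (L : Finset C) (hC : (0 : ℝ) < Fintype.card C) :
    ∑ ω : V → C, ind (ω u ∈ L) = Fintype.card (V → C) * (L.card / Fintype.card C) := by
  have h1 := mem_sum' (C := C) u (fun _ => (1 : ℝ)) L (fun _ _ => rfl)
  have h2 : ∑ ω : V → C, (1 : ℝ) * (L.card : ℝ) = Fintype.card (V → C) * L.card := by
    rw [Finset.sum_const, Finset.card_univ, nsmul_eq_mul, one_mul]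
  rw [h2] at h1
  simp only [one_mul] at h1
  field_simp
  linarith

lemma two_coord {C : Type} [Fintype C] (u u' : V) (hu : u ≠ u') (L : Finset C)
    (hC : (0 : ℝ) < Fintype.card C) :
    ∑ ω : V → C, ind (ω u ∈ L) * ind (ω u' ∈ L) =
      Fintype.card (V → C) * (L.card / Fintype.card C) ^ 2 := by
  have h1 := mem_sum' (C := C) u' (fun ω => ind (ω u ∈ L)) L
    (by intro ω c; rw [Function.update_of_ne hu])
  rw [← Finset.sum_mul, one_coord u L hC] at h1
  have h2 : ∑ ω : V → C, ind (ω u ∈ L) * ind (ω u' ∈ L) =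
      (Fintype.card (V → C) * (L.card / Fintype.card C) * L.card) / Fintype.card C := by
    rw [eq_div_iff hC.ne']
    linarith
  rw [h2]
  field_simp

lemma sq_count {C : Type} [Fintype C] (U : Finset V) (L : Finset C)
    (hC : (0 : ℝ) < Fintype.card C) :
    ∑ ω : V → C, (∑ u ∈ U, ind (ω u ∈ L)) ^ 2 ≤
      Fintype.card (V → C) * (U.card * (L.card / Fintype.card C) +
        (U.card * (L.card / Fintype.card C)) ^ 2) := by
  set q : ℝ := (L.card : ℝ) / Fintype.card C with hq
  set M : ℝ := (Fintype.card (V → C) : ℝ) with hM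
  have hM0 : 0 ≤ M := by positivity
  have hq0 : 0 ≤ q := by positivity
  have h1 : ∑ ω : V → C, (∑ u ∈ U, ind (ω u ∈ L)) ^ 2 =
      ∑ u ∈ U, ∑ u' ∈ U, ∑ ω : V → C, ind (ω u ∈ L) * ind (ω u' ∈ L) := by
    simp only [sq, Finset.sum_mul_sum]
    rw [Finset.sum_comm]
    refine Finset.sum_congr rfl fun u _ => ?_
    rw [Finset.sum_comm]
  rw [h1]
  calc ∑ u ∈ U, ∑ u' ∈ U, ∑ ω : V → C, ind (ω u ∈ L) * ind (ω u' ∈ L)
      ≤ ∑ u ∈ U, ∑ u' ∈ U, ((if u = u' then M * q else 0) + M * q ^ 2) := by
        refine Finset.sum_le_sum fun u _ => Finset.sum_le_sum fun u' _ => ?_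
        by_cases h : u = u'
        · subst h
          rw [if_pos rfl]
          have e1 : ∑ ω : V → C, ind (ω u ∈ L) * ind (ω u ∈ L) = M * q := by
            rw [← one_coord u L hC]
            refine Finset.sum_congr rfl fun ω _ => ?_
            unfold ind
            split_ifs <;> simp
          rw [e1]
          have : 0 ≤ M * q ^ 2 := by positivity
          linarith
        · rw [if_neg h, two_coord u u' h L hC, zero_add]
    _ = M * (U.card * q + (U.card * q) ^ 2) := by
        simp only [Finset.sum_add_distrib, Finset.sum_const, nsmul_eq_mul]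
        have : ∀ u ∈ U, (∑ u' ∈ U, if u = u' then M * q else 0) = M * q := by
          intro u hu
          rw [Finset.sum_ite_eq, if_pos hu]
        rw [Finset.sum_congr rfl this, Finset.sum_const, nsmul_eq_mul]
        ring

lemma exp_neg_le (x : ℝ) (hx : 0 ≤ x) : Real.exp (-x) ≤ 1 - x + x ^ 2 / 2 := by
  have h1 := Real.quadratic_le_exp_of_nonneg hx
  rw [Real.exp_neg]
  have h2 : 0 < 1 + x + x ^ 2 / 2 := by positivity
  have h3 : (Real.exp x)⁻¹ ≤ (1 + x + x ^ 2 / 2)⁻¹ := inv_anti₀ h2 h1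
  refine h3.trans ?_
  rw [inv_le_iff_one_le_mul₀ h2]
  nlinarith [sq_nonneg (x ^ 2)]

/-- members of `U` in the random set -/
noncomputable def Xc (H : V → Finset V) (k N : ℕ) (κ T : ℝ) (F : ℕ → ℝ) (U : Finset V)
    (ω : V → CC k N) : ℝ :=
  ∑ u ∈ U, if InJ H k N κ T F u ω then (1 : ℝ) else 0

section

variable (P : Par H r d k N κ T F)
include P

lemma Par.mgf (hN : 4 * (d : ℝ) ≤ N * ∑ j ∈ range k, F j) (hNd : d ≤ N)
    (U : Finset V) (hU : U.card ≤ d) (hU2 : (d : ℝ) / 2 ≤ U.card) (lam : ℝ) (hl : 0 ≤ lam) :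
    ∑ ω : V → CC k N, Real.exp (-(lam * Xc H k N κ T F U ω)) ≤
      Fintype.card (V → CC k N) *
        Real.exp (-(lam * ((∑ j ∈ range k, F j) / 8)) + lam ^ 2 * (8 * k ^ 2 * T ^ 2) / 2) := by
  set M := (Fintype.card (V → CC k N) : ℝ) with hM
  have hM0 : 0 ≤ M := by positivity
  set S := ∑ j ∈ range k, F j with hS
  have hS0 : 0 ≤ S := Finset.sum_nonneg fun j _ => (P.F0 j).le
  have hd0 : (0 : ℝ) < d := by exact_mod_cast P.dpos
  have hk : (1 : ℝ) ≤ k := by exact_mod_cast P.kpos
  have hN0 : (0 : ℝ) < N := by exact_mod_cast P.Npos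
  have hT1 : 1 ≤ T := by
    rw [P.Teq]
    exact Real.one_le_exp (by positivity)
  have hκ := P.κpos
  have hX0 : ∀ ω, 0 ≤ Xc H k N κ T F U ω := fun ω =>
    Finset.sum_nonneg fun u _ => by split_ifs <;> norm_num
  -- first moment
  have h1 : M * (S / 8) ≤ ∑ ω : V → CC k N, Xc H k N κ T F U ω := by
    unfold Xc
    rw [Finset.sum_comm]
    have e1 : ∑ u ∈ U, M * (S / (4 * d)) ≤
        ∑ u ∈ U, ∑ ω : V → CC k N, if InJ H k N κ T F u ω then (1 : ℝ) else 0 :=
      Finset.sum_le_sum fun u _ => P.EJ u hN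
    refine le_trans ?_ e1
    rw [Finset.sum_const, nsmul_eq_mul]
    have e2 : (d : ℝ) / 2 * (M * (S / (4 * d))) ≤ U.card * (M * (S / (4 * d))) :=
      mul_le_mul_of_nonneg_right hU2 (by positivity)
    refine le_trans (le_of_eq ?_) e2
    field_simp
    ring
  -- second moment
  have h2 : ∑ ω : V → CC k N, (Xc H k N κ T F U ω) ^ 2 ≤ M * (8 * k ^ 2 * T ^ 2) := by
    obtain ⟨L, hL⟩ : ∃ L : Finset (CC k N), ∀ c, c ∈ L ↔ (c.2 : ℕ) < ⌈κ * T⌉₊ :=
      ⟨univ.filter fun c : CC k N => (c.2 : ℕ) < ⌈κ * T⌉₊, fun c => by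
        rw [Finset.mem_filter]; exact ⟨fun h => h.2, fun h => ⟨Finset.mem_univ _, h⟩⟩⟩
    have e1 : (L.card : ℝ) ≤ k * (κ * T + 1) := by
      refine (card_thr_le' k N (fun _ => ⌈κ * T⌉₊) L (fun c hc => (hL c).mp hc)).trans ?_
      rw [Finset.sum_const, Finset.card_range, nsmul_eq_mul]
      apply mul_le_mul_of_nonneg_left _ (by positivity)
      exact (Nat.ceil_lt_add_one (by positivity)).le
    have e2 : ∀ ω : V → CC k N, Xc H k N κ T F U ω ≤ ∑ u ∈ U, ind (ω u ∈ L) := by
      intro ω
      unfold Xc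
      refine Finset.sum_le_sum fun u _ => ?_
      by_cases hj : InJ H k N κ T F u ω
      · rw [if_pos hj, ind_pos]
        rw [hL]
        have e3 : ((b H k N κ T F (ω u).1 u ω : ℕ) : ℝ) ≤ κ * T :=
          le_trans (by exact_mod_cast b_le_a H k N κ T F _ u ω)
            (a_le' H k N κ T hκ.le P.Tpos.le _ u ω)
        have e4 : ((ω u).2 : ℝ) < κ * T := lt_of_lt_of_le (by exact_mod_cast hj) e3
        exact Nat.lt_ceil.mpr e4
      · rw [if_neg hj]
        exact ind_nonneg _
    have e3 : ∑ ω : V → CC k N, (Xc H k N κ T F U ω) ^ 2 ≤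
        ∑ ω : V → CC k N, (∑ u ∈ U, ind (ω u ∈ L)) ^ 2 :=
      Finset.sum_le_sum fun ω _ => pow_le_pow_left₀ (hX0 ω) (e2 ω) 2
    refine e3.trans ((sq_count U L P.cardCpos).trans ?_)
    apply mul_le_mul_of_nonneg_left _ hM0
    have e5 : 1 ≤ κ * T := by
      rw [P.κeq]
      have : (1 : ℝ) ≤ N / d := by
        rw [le_div_iff₀ hd0, one_mul]; exact_mod_cast hNd
      calc (1 : ℝ) = 1 * 1 * 1 := by ring
        _ ≤ (N / d) * k * T := by
          apply mul_le_mul _ hT1 (by norm_num) (by positivity)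
          exact mul_le_mul this hk (by norm_num) (by positivity)
        _ = N * k / d * T := by ring
    have e6 : (U.card : ℝ) * (L.card / Fintype.card (CC k N)) ≤ 2 * k * T := by
      rw [P.cardC]
      have f1 : (L.card : ℝ) / (k * N) ≤ 2 * k * T / d := by
        have hkN : (0 : ℝ) < k * N := by positivity
        rw [div_le_iff₀ hkN]
        calc (L.card : ℝ) ≤ k * (κ * T + 1) := e1
          _ ≤ k * (2 * (κ * T)) := by
            apply mul_le_mul_of_nonneg_left _ (by positivity); linarith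
          _ = 2 * k * T / d * (k * N) := by rw [P.κeq]; field_simp
      calc (U.card : ℝ) * (L.card / (k * N)) ≤ d * (2 * k * T / d) := by
            apply mul_le_mul _ f1 (by positivity) hd0.le
            exact_mod_cast hU
        _ = 2 * k * T := by field_simp
    have e7 : 0 ≤ (U.card : ℝ) * (L.card / Fintype.card (CC k N)) := by positivity
    have e8 : 1 ≤ 2 * k * T := by nlinarith
    have e9 : ((U.card : ℝ) * (L.card / Fintype.card (CC k N))) ^ 2 ≤ (2 * k * T) ^ 2 :=
      pow_le_pow_left₀ e7 e6 2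
    nlinarith
  calc ∑ ω : V → CC k N, Real.exp (-(lam * Xc H k N κ T F U ω))
      ≤ ∑ ω : V → CC k N, (1 - lam * Xc H k N κ T F U ω + (lam * Xc H k N κ T F U ω) ^ 2 / 2) :=
        Finset.sum_le_sum fun ω _ => exp_neg_le _ (mul_nonneg hl (hX0 ω))
    _ = M - lam * (∑ ω : V → CC k N, Xc H k N κ T F U ω) +
        lam ^ 2 / 2 * ∑ ω : V → CC k N, (Xc H k N κ T F U ω) ^ 2 := by
        rw [Finset.sum_add_distrib, Finset.sum_sub_distrib, Finset.mul_sum, Finset.mul_sum]
        congr 1
        · simp [hM]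
        · exact Finset.sum_congr rfl fun ω _ => by ring
    _ ≤ M - lam * (M * (S / 8)) + lam ^ 2 / 2 * (M * (8 * k ^ 2 * T ^ 2)) := by
        have g1 := mul_le_mul_of_nonneg_left h1 hl
        have g2 := mul_le_mul_of_nonneg_left h2 (by positivity : 0 ≤ lam ^ 2 / 2)
        linarith
    _ = M * (-(lam * (S / 8)) + lam ^ 2 * (8 * k ^ 2 * T ^ 2) / 2 + 1) := by ring
    _ ≤ _ := mul_le_mul_of_nonneg_left (Real.add_one_le_exp _) hM0

end

/-- the part of `U` not covered by the copies -/
noncomputable def rem (H : V → Finset V) (k N : ℕ) (κ T : ℝ) (F : ℕ → ℝ) (U : Finset V) {m : ℕ}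
    (η : Fin m → V → CC k N) : Finset V :=
  U.filter fun u => ∀ j, ¬ InJ H k N κ T F u (η j)

lemma rem_cons (U : Finset V) {m : ℕ} (ω : V → CC k N) (η : Fin m → V → CC k N) :
    rem H k N κ T F U (Fin.cons ω η : Fin (m + 1) → V → CC k N) =
      rem H k N κ T F (U.filter fun u => ¬ InJ H k N κ T F u ω) η := by
  unfold rem
  ext u
  simp only [Finset.mem_filter, Fin.forall_fin_succ, Fin.cons_zero, Fin.cons_succ, and_assoc]

lemma filter_card (U : Finset V) (ω : V → CC k N) :
    ((U.filter fun u => ¬ InJ H k N κ T F u ω).card : ℝ) = U.card - Xc H k N κ T F U ω := by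
  unfold Xc
  rw [← Finset.sum_filter, Finset.sum_const, nsmul_eq_mul, mul_one]
  have := Finset.card_filter_add_card_filter_not (s := U) (fun u => InJ H k N κ T F u ω)
  have h2 : ((U.filter fun u => InJ H k N κ T F u ω).card : ℝ) +
      (U.filter fun u => ¬ InJ H k N κ T F u ω).card = U.card := by exact_mod_cast this
  linarith

lemma Par.copies (P : Par H r d k N κ T F)
    (hN : 4 * (d : ℝ) ≤ N * ∑ j ∈ range k, F j) (hNd : d ≤ N) (lam : ℝ) (hl : 0 ≤ lam) (m : ℕ)
    (U : Finset V) (hU : U.card ≤ d) :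
    ∑ η : Fin m → V → CC k N,
      (if (d : ℝ) / 2 < (rem H k N κ T F U η).card then (1 : ℝ) else 0) ≤
      (Fintype.card (V → CC k N) * Real.exp (-(lam * ((∑ j ∈ range k, F j) / 8)) +
        lam ^ 2 * (8 * k ^ 2 * T ^ 2) / 2)) ^ m * Real.exp (lam * (U.card - d / 2)) := by
  set ρ := (Fintype.card (V → CC k N) : ℝ) * Real.exp (-(lam * ((∑ j ∈ range k, F j) / 8)) +
        lam ^ 2 * (8 * k ^ 2 * T ^ 2) / 2) with hρ
  have hρ0 : 0 ≤ ρ := by positivity
  induction m generalizing U with
  | zero =>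
    have h1 : ∀ η : Fin 0 → V → CC k N, rem H k N κ T F U η = U := by
      intro η; unfold rem; simp
    simp only [h1, pow_zero, one_mul]
    rw [Finset.sum_const, Finset.card_univ]
    have : Fintype.card (Fin 0 → V → CC k N) = 1 := by simp
    rw [this, one_smul]
    split_ifs with h
    · exact Real.one_le_exp (mul_nonneg hl (by linarith))
    · exact (Real.exp_pos _).le
  | succ m ih =>
    by_cases hU2 : (d : ℝ) / 2 < U.card
    · have h1 : ∑ η : Fin (m + 1) → V → CC k N,
          (if (d : ℝ) / 2 < (rem H k N κ T F U η).card then (1 : ℝ) else 0) =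
          ∑ ω : V → CC k N, ∑ η : Fin m → V → CC k N,
          (if (d : ℝ) / 2 < (rem H k N κ T F (U.filter fun u => ¬ InJ H k N κ T F u ω) η).card
            then (1 : ℝ) else 0) := by
        rw [← (Fin.consEquiv (fun _ : Fin (m + 1) => V → CC k N)).sum_comp, Fintype.sum_prod_type]
        refine Finset.sum_congr rfl fun ω _ => Finset.sum_congr rfl fun η _ => ?_
        have : (Fin.consEquiv (fun _ : Fin (m + 1) => V → CC k N)) (ω, η) =
          (Fin.cons ω η : Fin (m + 1) → V → CC k N) := rfl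
        rw [this, rem_cons]
      rw [h1]
      calc ∑ ω : V → CC k N, ∑ η : Fin m → V → CC k N,
          (if (d : ℝ) / 2 < (rem H k N κ T F (U.filter fun u => ¬ InJ H k N κ T F u ω) η).card
            then (1 : ℝ) else 0)
          ≤ ∑ ω : V → CC k N, ρ ^ m * Real.exp (lam * ((U.card - Xc H k N κ T F U ω) - d / 2)) := by
            refine Finset.sum_le_sum fun ω _ => ?_
            have := ih (U.filter fun u => ¬ InJ H k N κ T F u ω)
              ((Finset.card_filter_le _ _).trans hU)
            rwa [filter_card] at this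
        _ = ρ ^ m * Real.exp (lam * (U.card - d / 2)) *
            ∑ ω : V → CC k N, Real.exp (-(lam * Xc H k N κ T F U ω)) := by
            rw [Finset.mul_sum]
            refine Finset.sum_congr rfl fun ω _ => ?_
            rw [mul_assoc, ← Real.exp_add]
            congr 2
            ring
        _ ≤ ρ ^ m * Real.exp (lam * (U.card - d / 2)) * ρ := by
            apply mul_le_mul_of_nonneg_left _ (by positivity)
            exact P.mgf hN hNd U hU hU2.le lam hl
        _ = ρ ^ (m + 1) * Real.exp (lam * (U.card - d / 2)) := by ring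
    · have h1 : ∀ η : Fin (m + 1) → V → CC k N,
          (if (d : ℝ) / 2 < (rem H k N κ T F U η).card then (1 : ℝ) else 0) = 0 := by
        intro η
        rw [if_neg]
        have : (rem H k N κ T F U η).card ≤ U.card := Finset.card_filter_le _ _
        have h2 : ((rem H k N κ T F U η).card : ℝ) ≤ U.card := by exact_mod_cast this
        linarith
      rw [Finset.sum_congr rfl fun η _ => h1 η, Finset.sum_const_zero]
      positivity

end Pool.Agent.TH447.DG
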