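import Pool.Agent.TH447.DG.Proc

set_option autoImplicit false
set_option linter.unusedSectionVars false
open Classical Finset

/-! First moment estimates for the random set. -/

namespace Pool.Agent.TH447.DG

variable {V : Type} [Fintype V]

lemma card_fin_lt (N m : ℕ) : (univ.filter fun x : Fin N => (x : ℕ) < m).card = min m N := by
  rw [← Finset.card_image_of_injective _ Fin.val_injective]
  have : (univ.filter fun x : Fin N => (x : ℕ) < m).image Fin.val = Finset.range (min m N) := by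
    ext y
    simp only [Finset.mem_image, Finset.mem_filter, Finset.mem_univ, true_and, Finset.mem_range,
      lt_min_iff]
    constructor
    · rintro ⟨x, hx, rfl⟩; exact ⟨hx, x.2⟩
    · rintro ⟨h1, h2⟩; exact ⟨⟨y, h2⟩, h1, rfl⟩
  rw [this, Finset.card_range]

lemma card_thr (k N : ℕ) (τ : ℕ → ℕ) :
    (univ.filter fun c : CC k N => (c.2 : ℕ) < τ c.1).card = ∑ j ∈ range k, min (τ j) N := by
  rw [Finset.card_filter, Fintype.sum_prod_type, Finset.sum_range]
  refine Finset.sum_congr rfl fun j _ => ?_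
  rw [← card_fin_lt, Finset.card_filter]

lemma card_thr_le (k N : ℕ) (τ : ℕ → ℕ) :
    ((univ.filter fun c : CC k N => (c.2 : ℕ) < τ c.1).card : ℝ) ≤ ∑ j ∈ range k, (τ j : ℝ) := by
  rw [card_thr, Nat.cast_sum]
  exact Finset.sum_le_sum fun j _ => by exact_mod_cast min_le_left _ _

lemma card_thr_eq (k N : ℕ) (τ : ℕ → ℕ) (h : ∀ j < k, τ j ≤ N) :
    ((univ.filter fun c : CC k N => (c.2 : ℕ) < τ c.1).card : ℝ) = ∑ j ∈ range k, (τ j : ℝ) := by
  rw [card_thr, Nat.cast_sum]
  exact Finset.sum_congr rfl fun j hj => by rw [min_eq_left (h j (Finset.mem_range.mp hj))]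

lemma card_thr_le' (k N : ℕ) (τ : ℕ → ℕ) (S : Finset (CC k N))
    (h : ∀ c ∈ S, (c.2 : ℕ) < τ c.1) : (S.card : ℝ) ≤ ∑ j ∈ range k, (τ j : ℝ) := by
  refine le_trans ?_ (card_thr_le k N τ)
  have : S ⊆ univ.filter fun c : CC k N => (c.2 : ℕ) < τ c.1 := by
    intro c hc
    rw [Finset.mem_filter]
    exact ⟨Finset.mem_univ _, h c hc⟩
  exact_mod_cast Finset.card_le_card this

/-- standing assumptions -/
structure Par (H : V → Finset V) (r : V → ℕ) (d k N : ℕ) (κ T : ℝ) (F : ℕ → ℝ) : Prop where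
  hr : ∀ v, ∀ u ∈ H v, r u < r v
  hd : ∀ v, (H v).card ≤ d
  htf : ∀ v, ∀ u ∈ H v, Disjoint (H u) (H v)
  dpos : 0 < d
  kpos : 0 < k
  Npos : 0 < N
  κeq : κ = N * k / d
  Teq : T = Real.exp (8 * k)
  hcap : κ * T ≤ N / 2
  F0 : ∀ i, 0 < F i
  FS : ∀ i, i < k → F i * Real.exp (8 * (1 + ∑ j ∈ Ico (i + 1) k, F j)) ≤ 1

variable {H : V → Finset V} {r : V → ℕ} {d k N : ℕ} {κ T : ℝ} {F : ℕ → ℝ}

section

variable (P : Par H r d k N κ T F)
include P

lemma Par.κpos : 0 < κ := by
  rw [P.κeq]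
  have h1 := P.dpos; have h2 := P.kpos; have h3 := P.Npos
  positivity

lemma Par.Tpos : 0 < T := by rw [P.Teq]; exact Real.exp_pos _

lemma Par.cardC : (Fintype.card (CC k N) : ℝ) = k * N := by simp

lemma Par.cardCpos : (0 : ℝ) < Fintype.card (CC k N) := by
  rw [P.cardC]
  have h2 := P.kpos; have h3 := P.Npos
  positivity

lemma Par.a_half (i : ℕ) (v : V) (ω : V → CC k N) : (a H k N κ T i v ω : ℝ) ≤ N / 2 :=
  (a_le' H k N κ T P.κpos.le P.Tpos.le i v ω).trans P.hcap

lemma Par.b_half (i : ℕ) (v : V) (ω : V → CC k N) : (b H k N κ T F i v ω : ℝ) ≤ N / 2 :=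
  le_trans (by exact_mod_cast b_le_a H k N κ T F i v ω) (P.a_half i v ω)

lemma Par.SB_half (i : ℕ) (u : V) (ω : V → CC k N) :
    ((SB H k N κ T F i u ω).card : ℝ) ≤ Fintype.card (CC k N) / 2 := by
  refine (card_thr_le' k N
    (fun j => if j ≤ i then a H k N κ T j u ω else b H k N κ T F j u ω) _ ?_).trans ?_
  · intro c hc
    unfold SB at hc
    rw [Finset.mem_filter] at hc
    by_cases h : (c.1 : ℕ) ≤ i
    · have h2 := hc.2
      simp only [h, true_and, not_lt.mpr h, false_and, or_false] at h2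
      simpa only [h, if_true] using h2
    · have h2 := hc.2
      simp only [h, false_and, not_le.mp h, true_and, false_or] at h2
      simpa only [h, if_false] using h2
  calc ∑ j ∈ range k, (((if j ≤ i then a H k N κ T j u ω else b H k N κ T F j u ω) : ℕ) : ℝ)
      ≤ ∑ j ∈ range k, (N : ℝ) / 2 := by
        refine Finset.sum_le_sum fun j _ => ?_
        split_ifs
        · exact P.a_half j u ω
        · exact P.b_half j u ω
    _ = Fintype.card (CC k N) / 2 := by
        rw [Finset.sum_const, Finset.card_range, nsmul_eq_mul, P.cardC]; ring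

omit P in
lemma SA_sub_SB (i : ℕ) (u : V) (ω : V → CC k N) :
    SA H k N κ T i u ω ⊆ SB H k N κ T F i u ω := by
  intro c hc
  unfold SA at hc
  unfold SB
  rw [Finset.mem_filter] at hc ⊢
  exact ⟨hc.1, Or.inl ⟨hc.2.1.le, hc.2.2⟩⟩

lemma Par.SA_half (i : ℕ) (u : V) (ω : V → CC k N) :
    ((SA H k N κ T i u ω).card : ℝ) ≤ Fintype.card (CC k N) / 2 :=
  le_trans (by exact_mod_cast Finset.card_le_card (SA_sub_SB (F := F) i u ω)) (P.SB_half i u ω)

lemma Par.SB_lt (i : ℕ) (u : V) (ω : V → CC k N) :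
    (SB H k N κ T F i u ω).card < Fintype.card (CC k N) := by
  have h1 := P.SB_half i u ω
  have h2 := P.cardCpos
  have : ((SB H k N κ T F i u ω).card : ℝ) < Fintype.card (CC k N) := by linarith
  exact_mod_cast this

lemma Par.SA_lt (i : ℕ) (u : V) (ω : V → CC k N) :
    (SA H k N κ T i u ω).card < Fintype.card (CC k N) := by
  have h1 := P.SA_half i u ω
  have h2 := P.cardCpos
  have : ((SA H k N κ T i u ω).card : ℝ) < Fintype.card (CC k N) := by linarith
  exact_mod_cast this

omit P in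
lemma SA_card (i : ℕ) (hi : i ≤ k) (u : V) (ω : V → CC k N) :
    ((SA H k N κ T i u ω).card : ℝ) ≤ ∑ j ∈ range i, (a H k N κ T j u ω : ℝ) := by
  refine (card_thr_le' k N
    (fun j => if j < i then a H k N κ T j u ω else 0) _ ?_).trans (le_of_eq ?_)
  · intro c hc
    unfold SA at hc
    rw [Finset.mem_filter] at hc
    simpa only [hc.2.1, if_true] using hc.2.2
  have h2 : ∀ j, (((if j < i then a H k N κ T j u ω else 0) : ℕ) : ℝ) =
      if j < i then (a H k N κ T j u ω : ℝ) else 0 := by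
    intro j; split_ifs <;> simp
  rw [Finset.sum_congr rfl fun j _ => h2 j, ← Finset.sum_filter]
  congr 1
  ext j
  simp only [Finset.mem_filter, Finset.mem_range]
  omega

omit P in
lemma SBA_card (i : ℕ) (hi : i < k) (u : V) (ω : V → CC k N) :
    ((SB H k N κ T F i u ω).card : ℝ) - (SA H k N κ T i u ω).card ≤
      a H k N κ T i u ω + ∑ j ∈ Ico (i + 1) k, (b H k N κ T F j u ω : ℝ) := by
  have h0 : ((SB H k N κ T F i u ω).card : ℝ) - (SA H k N κ T i u ω).card =
      ((SB H k N κ T F i u ω \ SA H k N κ T i u ω).card : ℝ) := by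
    rw [Finset.card_sdiff_of_subset (SA_sub_SB i u ω),
      Nat.cast_sub (Finset.card_le_card (SA_sub_SB i u ω))]
  rw [h0]
  refine (card_thr_le' k N
    (fun j => if j = i then a H k N κ T j u ω else if i < j then b H k N κ T F j u ω else 0)
      _ ?_).trans (le_of_eq ?_)
  · intro c hc
    unfold SA SB at hc
    rw [Finset.mem_sdiff, Finset.mem_filter, Finset.mem_filter] at hc
    have h2 := hc.1.2
    have h3 : ¬ ((c.1 : ℕ) < i ∧ (c.2 : ℕ) < a H k N κ T c.1 u ω) :=
      fun h => hc.2 ⟨Finset.mem_univ _, h⟩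
    rcases h2 with h2 | h2
    · have : (c.1 : ℕ) = i := by
        by_contra hne
        exact h3 ⟨by omega, h2.2⟩
      simp only [this, if_true]
      rw [← this]; exact h2.2
    · have h4 : (c.1 : ℕ) ≠ i := by omega
      simp only [h4, if_false, h2.1, if_true]; exact h2.2
  have h2 : ∀ j, (((if j = i then a H k N κ T j u ω else
        if i < j then b H k N κ T F j u ω else 0) : ℕ) : ℝ) =
      (if j = i then (a H k N κ T i u ω : ℝ) else 0) +
      (if i < j then (b H k N κ T F j u ω : ℝ) else 0) := by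
    intro j
    by_cases h : j = i
    · subst h; simp
    · simp [h]
  rw [Finset.sum_congr rfl fun j _ => h2 j, Finset.sum_add_distrib]
  congr 1
  · rw [Finset.sum_ite_eq' (range k) i, if_pos (Finset.mem_range.mpr hi)]
  · rw [← Finset.sum_filter]
    congr 1
    ext j
    simp only [Finset.mem_filter, Finset.mem_range, Finset.mem_Ico]
    omega

/-- mean one for products over two disjoint sets -/
lemma Par.two (B1 B2 : V → (V → CC k N) → Finset (CC k N))
    (h1 : ∀ z ω ω', (∀ u, r u < r z → ω u = ω' u) → B1 z ω = B1 z ω')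
    (h2 : ∀ z ω ω', (∀ u, r u < r z → ω u = ω' u) → B2 z ω = B2 z ω')
    (c1 : ∀ z ω, (B1 z ω).card < Fintype.card (CC k N))
    (c2 : ∀ z ω, (B2 z ω).card < Fintype.card (CC k N))
    (S1 S2 : Finset V) (hS : Disjoint S1 S2) :
    ∑ ω : V → CC k N, (∏ z ∈ S1, phi (ω z) (B1 z ω)) * (∏ z ∈ S2, phi (ω z) (B2 z ω)) =
      Fintype.card (V → CC k N) := by
  rw [← mart r (fun z ω => if z ∈ S1 then B1 z ω else B2 z ω)
    (by
      intro z ω ω' h
      split_ifs
      · exact h1 z ω ω' h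
      · exact h2 z ω ω' h)
    (by
      intro z ω
      split_ifs
      · exact c1 z ω
      · exact c2 z ω) (S1 ∪ S2)]
  refine Finset.sum_congr rfl fun ω _ => ?_
  rw [Finset.prod_union hS]
  congr 1
  · exact Finset.prod_congr rfl fun z hz => by rw [if_pos hz]
  · refine Finset.prod_congr rfl fun z hz => ?_
    rw [if_neg (fun h => (Finset.disjoint_left.mp hS) h hz)]

lemma Par.EY (i : ℕ) (v : V) :
    ∑ ω : V → CC k N, YB H k N κ T F i v ω = Fintype.card (V → CC k N) :=
  mart r (fun z ω => SB H k N κ T F i z ω) (fun z ω ω' h => SB_adapt H k N κ T F r P.hr i z ω ω' h)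
    (fun z ω => P.SB_lt i z ω) (H v)

lemma Par.EYW (i j : ℕ) (v u : V) (hu : u ∈ H v) :
    ∑ ω : V → CC k N, YB H k N κ T F i v ω * WA H k N κ T j u ω =
      Fintype.card (V → CC k N) :=
  P.two (fun z ω => SB H k N κ T F i z ω) (fun z ω => SA H k N κ T j z ω)
    (fun z ω ω' h => SB_adapt H k N κ T F r P.hr i z ω ω' h)
    (fun z ω ω' h => SA_adapt H k N κ T r P.hr j z ω ω' h)
    (fun z ω => P.SB_lt i z ω) (fun z ω => P.SA_lt j z ω) (H v) (H u) (P.htf v u hu).symm

lemma Par.EYY (i j : ℕ) (v u : V) (hu : u ∈ H v) :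
    ∑ ω : V → CC k N, YB H k N κ T F i v ω * YB H k N κ T F j u ω =
      Fintype.card (V → CC k N) :=
  P.two (fun z ω => SB H k N κ T F i z ω) (fun z ω => SB H k N κ T F j z ω)
    (fun z ω ω' h => SB_adapt H k N κ T F r P.hr i z ω ω' h)
    (fun z ω ω' h => SB_adapt H k N κ T F r P.hr j z ω ω' h)
    (fun z ω => P.SB_lt i z ω) (fun z ω => P.SB_lt j z ω) (H v) (H u) (P.htf v u hu).symm

lemma Par.EYa (i j : ℕ) (v u : V) (hu : u ∈ H v) :
    ∑ ω : V → CC k N, YB H k N κ T F i v ω * (a H k N κ T j u ω : ℝ) ≤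
      κ * Fintype.card (V → CC k N) := by
  rw [← P.EYW i j v u hu, Finset.mul_sum]
  refine Finset.sum_le_sum fun ω _ => ?_
  have h1 := a_le H k N κ T P.κpos.le j u ω
  have h2 := YB_nonneg H k N κ T F i v ω
  nlinarith

lemma Par.EYb (i j : ℕ) (v u : V) (hu : u ∈ H v) :
    ∑ ω : V → CC k N, YB H k N κ T F i v ω * (b H k N κ T F j u ω : ℝ) ≤
      κ * F j * Fintype.card (V → CC k N) := by
  rw [← P.EYY i j v u hu, Finset.mul_sum]
  refine Finset.sum_le_sum fun ω _ => ?_
  have h1 := b_le H k N κ T F P.κpos.le (fun i => (P.F0 i).le) j u ω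
  have h2 := YB_nonneg H k N κ T F i v ω
  nlinarith

end

end Pool.Agent.TH447.DG
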