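import Pool.Agent.TH447.DG.Est

set_option autoImplicit false
set_option linter.unusedSectionVars false
open Classical Finset

/-! Lower bound for the probability that a vertex is in the random set. -/

namespace Pool.Agent.TH447.DG

variable {V : Type} [Fintype V]
variable {H : V → Finset V} {r : V → ℕ} {d k N : ℕ} {κ T : ℝ} {F : ℕ → ℝ}

lemma phi_le_exp {C : Type} [Fintype C] (hC : (0 : ℝ) < Fintype.card C) (x : C) (S : Finset C)
    (hS : (S.card : ℝ) ≤ Fintype.card C / 2) :
    phi x S ≤ Real.exp (2 * (S.card / Fintype.card C)) := by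
  unfold phi
  split_ifs
  · exact (Real.exp_pos _).le
  · set s := (S.card : ℝ) / Fintype.card C with hs
    have h0 : 0 ≤ s := by positivity
    have h1 : s ≤ 1 / 2 := by
      rw [hs, div_le_iff₀ hC]; linarith
    have h2 : 1 / (1 - s) ≤ 1 + 2 * s := by
      rw [div_le_iff₀ (by linarith)]
      nlinarith
    have h3 := Real.add_one_le_exp (2 * s)
    linarith

lemma phi_le_phi {C : Type} [Fintype C] (hC : (0 : ℝ) < Fintype.card C) (x : C)
    (S S' : Finset C) (hSS : S ⊆ S')
    (hS : (S'.card : ℝ) ≤ Fintype.card C / 2) :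
    phi x S' ≤ phi x S * Real.exp (2 * (((S'.card : ℝ) - S.card) / Fintype.card C)) := by
  by_cases hx : x ∈ S'
  · have : phi x S' = 0 := by simp [phi, hx]
    rw [this]
    exact mul_nonneg (phi_nonneg _ _) (Real.exp_pos _).le
  · have hx' : x ∉ S := fun h => hx (hSS h)
    have e1 : phi x S' = 1 / (1 - (S'.card : ℝ) / Fintype.card C) := by simp [phi, hx]
    have e2 : phi x S = 1 / (1 - (S.card : ℝ) / Fintype.card C) := by simp [phi, hx']
    rw [e1, e2]
    rw [sub_div]
    set s' := (S'.card : ℝ) / Fintype.card C with hs'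
    set s := (S.card : ℝ) / Fintype.card C with hs
    have h1 : s' ≤ 1 / 2 := by
      rw [hs', div_le_iff₀ hC]; linarith
    have h2 : s ≤ s' := by
      rw [hs, hs']
      apply div_le_div_of_nonneg_right _ hC.le
      exact_mod_cast Finset.card_le_card hSS
    have h3 : (0 : ℝ) < 1 - s' := by linarith
    have h4 : (0 : ℝ) < 1 - s := by linarith
    have h5 := Real.add_one_le_exp (2 * (s' - s))
    have h6 : 1 / (1 - s') ≤ 1 / (1 - s) * (2 * (s' - s) + 1) := by
      rw [div_mul_eq_mul_div, one_mul, div_le_div_iff₀ h3 h4]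
      nlinarith
    refine h6.trans (mul_le_mul_of_nonneg_left h5 ?_)
    positivity

/-- total preliminary hazard of the earlier neighbours, types below `i` -/
noncomputable def LA (H : V → Finset V) (k N : ℕ) (κ T : ℝ) (i : ℕ) (v : V)
    (ω : V → CC k N) : ℝ :=
  ∑ u ∈ H v, (∑ j ∈ range i, (a H k N κ T j u ω : ℝ)) / (k * N)

noncomputable def LB (H : V → Finset V) (k N : ℕ) (κ T : ℝ) (F : ℕ → ℝ) (i : ℕ) (v : V)
    (ω : V → CC k N) : ℝ :=
  ∑ u ∈ H v, (a H k N κ T i u ω + ∑ j ∈ Ico (i + 1) k, (b H k N κ T F j u ω : ℝ)) / (k * N)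

lemma LA_nonneg (i : ℕ) (v : V) (ω : V → CC k N) : 0 ≤ LA H k N κ T i v ω := by
  unfold LA; positivity

lemma LB_nonneg (i : ℕ) (v : V) (ω : V → CC k N) : 0 ≤ LB H k N κ T F i v ω := by
  unfold LB; positivity

section

variable (P : Par H r d k N κ T F)
include P

lemma Par.WA_le (i : ℕ) (hi : i ≤ k) (v : V) (ω : V → CC k N) :
    WA H k N κ T i v ω ≤ Real.exp (2 * LA H k N κ T i v ω) := by
  unfold WA LA
  rw [Finset.mul_sum, Real.exp_sum]
  refine Finset.prod_le_prod (fun _ _ => phi_nonneg _ _) fun u _ => ?_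
  refine (phi_le_exp P.cardCpos _ _ (P.SA_half i u ω)).trans ?_
  apply Real.exp_le_exp.mpr
  rw [P.cardC]
  have h1 := SA_card (H := H) (N := N) (κ := κ) (T := T) i hi u ω
  have h2 : (0 : ℝ) ≤ (k : ℝ) * N := by positivity
  have := div_le_div_of_nonneg_right h1 h2
  linarith

lemma Par.YB_le (i : ℕ) (hi : i < k) (v : V) (ω : V → CC k N) :
    YB H k N κ T F i v ω ≤ WA H k N κ T i v ω * Real.exp (2 * LB H k N κ T F i v ω) := by
  unfold YB WA LB
  rw [Finset.mul_sum, Real.exp_sum, ← Finset.prod_mul_distrib]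
  refine Finset.prod_le_prod (fun _ _ => phi_nonneg _ _) fun u _ => ?_
  refine (phi_le_phi P.cardCpos _ _ _ (SA_sub_SB (F := F) i u ω) (P.SB_half i u ω)).trans ?_
  refine mul_le_mul_of_nonneg_left ?_ (phi_nonneg _ _)
  apply Real.exp_le_exp.mpr
  rw [P.cardC]
  have h1 := SBA_card (H := H) (N := N) (κ := κ) (T := T) (F := F) i hi u ω
  have h2 : (0 : ℝ) ≤ (k : ℝ) * N := by positivity
  have := div_le_div_of_nonneg_right h1 h2
  linarith

/-- partial sums of the weights -/
lemma Par.b_lower (i : ℕ) (hi : i < k) (v : V) (ω : V → CC k N) :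
    κ * F i * YB H k N κ T F i v ω * (1 - LA H k N κ T i v ω / (4 * k) -
      LB H k N κ T F i v ω / (4 * (1 + ∑ j ∈ Ico (i + 1) k, F j))) - 1 ≤
      b H k N κ T F i v ω := by
  have hκ := P.κpos
  have hF := P.F0 i
  have hS : 0 ≤ ∑ j ∈ Ico (i + 1) k, F j := Finset.sum_nonneg fun j _ => (P.F0 j).le
  have hk : (0 : ℝ) < k := by exact_mod_cast P.kpos
  have hY := YB_nonneg H k N κ T F i v ω
  have hLA := LA_nonneg (H := H) (k := k) (N := N) (κ := κ) (T := T) i v ω
  have hLB := LB_nonneg (H := H) (k := k) (N := N) (κ := κ) (T := T) (F := F) i v ω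
  have hW := WA_nonneg H k N κ T i v ω
  set S' := ∑ j ∈ Ico (i + 1) k, F j with hS'
  set A := LA H k N κ T i v ω with hA
  set B := LB H k N κ T F i v ω with hB
  have hb0 : (0 : ℝ) ≤ b H k N κ T F i v ω := Nat.cast_nonneg _
  have hX : 0 ≤ κ * F i * YB H k N κ T F i v ω := by positivity
  have hA' : 0 ≤ A / (4 * k) := by positivity
  have hB' : 0 ≤ B / (4 * (1 + S')) := by positivity
  by_cases h1 : A ≤ 4 * k
  · by_cases h2 : B ≤ 4 * (1 + S')
    · have g1 : WA H k N κ T i v ω ≤ T := by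
        refine (P.WA_le i hi.le v ω).trans ?_
        have e0 : Real.exp (2 * A) ≤ Real.exp (8 * k) := by
          apply Real.exp_le_exp.mpr; linarith
        exact e0.trans (le_of_eq P.Teq.symm)
      have g2 : F i * YB H k N κ T F i v ω ≤ WA H k N κ T i v ω := by
        have e1 := P.YB_le i hi v ω
        have e2 : Real.exp (2 * B) ≤ Real.exp (8 * (1 + S')) := by
          apply Real.exp_le_exp.mpr; linarith
        have e3 := P.FS i hi
        calc F i * YB H k N κ T F i v ω
            ≤ F i * (WA H k N κ T i v ω * Real.exp (8 * (1 + S'))) := by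
              apply mul_le_mul_of_nonneg_left _ hF.le
              exact e1.trans (mul_le_mul_of_nonneg_left e2 hW)
          _ = WA H k N κ T i v ω * (F i * Real.exp (8 * (1 + S'))) := by ring
          _ ≤ WA H k N κ T i v ω * 1 := mul_le_mul_of_nonneg_left e3 hW
          _ = WA H k N κ T i v ω := mul_one _
      have g3 := b_ge H k N κ T F hκ.le i v ω g1 g2
      refine le_trans ?_ g3
      have : κ * F i * YB H k N κ T F i v ω * (1 - A / (4 * k) - B / (4 * (1 + S'))) ≤
          κ * F i * YB H k N κ T F i v ω * 1 :=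
        mul_le_mul_of_nonneg_left (by linarith) hX
      linarith
    · have h3 : 1 < B / (4 * (1 + S')) := by
        rw [lt_div_iff₀ (by positivity)]
        linarith [not_le.mp h2]
      have : κ * F i * YB H k N κ T F i v ω * (1 - A / (4 * k) - B / (4 * (1 + S'))) ≤ 0 :=
        mul_nonpos_of_nonneg_of_nonpos hX (by linarith)
      linarith
  · have h3 : 1 < A / (4 * k) := by
      rw [lt_div_iff₀ (by positivity)]
      linarith [not_le.mp h1]
    have : κ * F i * YB H k N κ T F i v ω * (1 - A / (4 * k) - B / (4 * (1 + S'))) ≤ 0 :=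
      mul_nonpos_of_nonneg_of_nonpos hX (by linarith)
    linarith

lemma Par.κdiv : κ / (k * N) = 1 / d := by
  have h1 := P.dpos; have h2 := P.kpos; have h3 := P.Npos
  rw [P.κeq]
  have e1 : (d : ℝ) ≠ 0 := by positivity
  have e2 : (k : ℝ) ≠ 0 := by positivity
  have e3 : (N : ℝ) ≠ 0 := by positivity
  field_simp

lemma Par.EYLA (i : ℕ) (hi : i < k) (v : V) :
    ∑ ω : V → CC k N, YB H k N κ T F i v ω * LA H k N κ T i v ω ≤
      k * Fintype.card (V → CC k N) := by
  set M := (Fintype.card (V → CC k N) : ℝ) with hM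
  have hM0 : 0 ≤ M := by positivity
  have h1 : ∑ ω : V → CC k N, YB H k N κ T F i v ω * LA H k N κ T i v ω =
      ∑ u ∈ H v, ∑ j ∈ range i,
        (∑ ω : V → CC k N, YB H k N κ T F i v ω * (a H k N κ T j u ω : ℝ)) / (k * N) := by
    unfold LA
    simp only [Finset.mul_sum, Finset.sum_div, mul_div_assoc']
    rw [Finset.sum_comm]
    refine Finset.sum_congr rfl fun u _ => ?_
    rw [Finset.sum_comm]
  rw [h1]
  have hd0 : (0 : ℝ) < d := by exact_mod_cast P.dpos
  calc ∑ u ∈ H v, ∑ j ∈ range i,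
        (∑ ω : V → CC k N, YB H k N κ T F i v ω * (a H k N κ T j u ω : ℝ)) / (k * N)
      ≤ ∑ u ∈ H v, ∑ j ∈ range i, (1 / d) * M := by
        refine Finset.sum_le_sum fun u hu => Finset.sum_le_sum fun j _ => ?_
        rw [← P.κdiv]
        have := div_le_div_of_nonneg_right (P.EYa i j v u hu)
          (by positivity : (0 : ℝ) ≤ (k : ℝ) * N)
        refine this.trans (le_of_eq ?_)
        ring
    _ = (H v).card * (i * ((1 / d) * M)) := by
        simp only [Finset.sum_const, Finset.card_range, nsmul_eq_mul]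
    _ ≤ d * (k * ((1 / d) * M)) := by
        have e1 : ((H v).card : ℝ) ≤ d := by exact_mod_cast P.hd v
        have e2 : (i : ℝ) ≤ k := by exact_mod_cast hi.le
        have e3 : 0 ≤ (1 / (d : ℝ)) * M := by positivity
        have e4 := mul_le_mul_of_nonneg_right e2 e3
        exact mul_le_mul e1 e4 (by positivity) hd0.le
    _ = k * M := by field_simp

lemma Par.EYLB (i : ℕ) (v : V) :
    ∑ ω : V → CC k N, YB H k N κ T F i v ω * LB H k N κ T F i v ω ≤
      (1 + ∑ j ∈ Ico (i + 1) k, F j) * Fintype.card (V → CC k N) := by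
  set M := (Fintype.card (V → CC k N) : ℝ) with hM
  have hM0 : 0 ≤ M := by positivity
  have h1 : ∑ ω : V → CC k N, YB H k N κ T F i v ω * LB H k N κ T F i v ω =
      ∑ u ∈ H v, ((∑ ω : V → CC k N, YB H k N κ T F i v ω * (a H k N κ T i u ω : ℝ)) +
        ∑ j ∈ Ico (i + 1) k,
        (∑ ω : V → CC k N, YB H k N κ T F i v ω * (b H k N κ T F j u ω : ℝ))) / (k * N) := by
    unfold LB
    simp only [Finset.mul_sum, mul_div_assoc', mul_add]
    rw [Finset.sum_comm]
    refine Finset.sum_congr rfl fun u _ => ?_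
    rw [← Finset.sum_div, Finset.sum_add_distrib]
    congr 2
    rw [Finset.sum_comm]
  rw [h1]
  have hd0 : (0 : ℝ) < d := by exact_mod_cast P.dpos
  have hS : 0 ≤ ∑ j ∈ Ico (i + 1) k, F j := Finset.sum_nonneg fun j _ => (P.F0 j).le
  calc ∑ u ∈ H v, ((∑ ω : V → CC k N, YB H k N κ T F i v ω * (a H k N κ T i u ω : ℝ)) +
        ∑ j ∈ Ico (i + 1) k,
        (∑ ω : V → CC k N, YB H k N κ T F i v ω * (b H k N κ T F j u ω : ℝ))) / (k * N)
      ≤ ∑ u ∈ H v, (1 / d) * ((1 + ∑ j ∈ Ico (i + 1) k, F j) * M) := by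
        refine Finset.sum_le_sum fun u hu => ?_
        rw [← P.κdiv]
        have e1 : (∑ ω : V → CC k N, YB H k N κ T F i v ω * (a H k N κ T i u ω : ℝ)) +
          ∑ j ∈ Ico (i + 1) k,
          (∑ ω : V → CC k N, YB H k N κ T F i v ω * (b H k N κ T F j u ω : ℝ)) ≤
          κ * M + ∑ j ∈ Ico (i + 1) k, κ * F j * M :=
          add_le_add (P.EYa i i v u hu) (Finset.sum_le_sum fun j _ => P.EYb i j v u hu)
        have := div_le_div_of_nonneg_right e1 (by positivity : (0 : ℝ) ≤ (k : ℝ) * N)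
        refine this.trans (le_of_eq ?_)
        have e2 : ∑ j ∈ Ico (i + 1) k, κ * F j * M = κ * M * ∑ j ∈ Ico (i + 1) k, F j := by
          rw [Finset.mul_sum]; exact Finset.sum_congr rfl fun j _ => by ring
        rw [e2]; ring
    _ = (H v).card * ((1 / d) * ((1 + ∑ j ∈ Ico (i + 1) k, F j) * M)) := by
        rw [Finset.sum_const, nsmul_eq_mul]
    _ ≤ d * ((1 / d) * ((1 + ∑ j ∈ Ico (i + 1) k, F j) * M)) := by
        have e1 : ((H v).card : ℝ) ≤ d := by exact_mod_cast P.hd v
        exact mul_le_mul_of_nonneg_right e1 (by positivity)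
    _ = (1 + ∑ j ∈ Ico (i + 1) k, F j) * M := by field_simp

lemma Par.Eb (i : ℕ) (hi : i < k) (v : V) :
    κ * F i * Fintype.card (V → CC k N) / 2 - Fintype.card (V → CC k N) ≤
      ∑ ω : V → CC k N, (b H k N κ T F i v ω : ℝ) := by
  set M := (Fintype.card (V → CC k N) : ℝ) with hM
  have hM0 : 0 ≤ M := by positivity
  set S' := ∑ j ∈ Ico (i + 1) k, F j with hS'
  have hS : 0 ≤ S' := Finset.sum_nonneg fun j _ => (P.F0 j).le
  have hk : (0 : ℝ) < k := by exact_mod_cast P.kpos
  have hκ := P.κpos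
  have hF := P.F0 i
  have h1 : ∑ ω : V → CC k N, (κ * F i * YB H k N κ T F i v ω * (1 - LA H k N κ T i v ω / (4 * k) -
      LB H k N κ T F i v ω / (4 * (1 + S'))) - 1) ≤
      ∑ ω : V → CC k N, (b H k N κ T F i v ω : ℝ) :=
    Finset.sum_le_sum fun ω _ => P.b_lower i hi v ω
  refine le_trans ?_ h1
  have h2 : ∑ ω : V → CC k N, (κ * F i * YB H k N κ T F i v ω *
      (1 - LA H k N κ T i v ω / (4 * k) - LB H k N κ T F i v ω / (4 * (1 + S'))) - 1) =
      κ * F i * (∑ ω : V → CC k N, YB H k N κ T F i v ω) -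
      κ * F i / (4 * k) * (∑ ω : V → CC k N, YB H k N κ T F i v ω * LA H k N κ T i v ω) -
      κ * F i / (4 * (1 + S')) *
        (∑ ω : V → CC k N, YB H k N κ T F i v ω * LB H k N κ T F i v ω) - M := by
    rw [Finset.mul_sum, Finset.mul_sum, Finset.mul_sum, ← Finset.sum_sub_distrib,
      ← Finset.sum_sub_distrib]
    have : M = ∑ ω : V → CC k N, (1 : ℝ) := by simp [hM]
    rw [this, ← Finset.sum_sub_distrib]
    refine Finset.sum_congr rfl fun ω _ => ?_
    ring
  rw [h2, P.EY]
  have h3 := P.EYLA i hi v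
  have h4 := P.EYLB i v
  rw [← hM] at h3 h4 ⊢
  rw [← hS'] at h4
  have h5 : κ * F i / (4 * k) *
      (∑ ω : V → CC k N, YB H k N κ T F i v ω * LA H k N κ T i v ω) ≤ κ * F i * M / 4 := by
    calc _ ≤ κ * F i / (4 * k) * (k * M) := mul_le_mul_of_nonneg_left h3 (by positivity)
      _ = κ * F i * M / 4 := by field_simp
  have h6 : κ * F i / (4 * (1 + S')) *
      (∑ ω : V → CC k N, YB H k N κ T F i v ω * LB H k N κ T F i v ω) ≤ κ * F i * M / 4 := by
    calc _ ≤ κ * F i / (4 * (1 + S')) * ((1 + S') * M) :=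
          mul_le_mul_of_nonneg_left h4 (by positivity)
      _ = κ * F i * M / 4 := by
          have : (1 + S') ≠ 0 := by positivity
          field_simp
  linarith

/-- lower bound for the probability of being in the random set -/
lemma Par.EJ (v : V) (hN : 4 * (d : ℝ) ≤ N * ∑ j ∈ range k, F j) :
    (Fintype.card (V → CC k N) : ℝ) * ((∑ j ∈ range k, F j) / (4 * d)) ≤
      ∑ ω : V → CC k N, if InJ H k N κ T F v ω then (1 : ℝ) else 0 := by
  set M := (Fintype.card (V → CC k N) : ℝ) with hM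
  have hM0 : 0 ≤ M := by positivity
  set S := ∑ j ∈ range k, F j with hS
  have hd0 : (0 : ℝ) < d := by exact_mod_cast P.dpos
  have hk : (0 : ℝ) < k := by exact_mod_cast P.kpos
  have hN0 : (0 : ℝ) < N := by exact_mod_cast P.Npos
  have h1 := mem_sum (C := CC k N) v (fun _ => (1 : ℝ))
    (fun ω => univ.filter fun c : CC k N => (c.2 : ℕ) < b H k N κ T F c.1 v ω)
    (fun _ _ => rfl)
    (by
      intro ω c
      refine Finset.filter_congr fun c' _ => ?_
      rw [b_adapt H k N κ T F r P.hr c'.1 c'.1.2 v (Function.update ω v c) ω]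
      intro u hu
      have : u ≠ v := by rintro rfl; omega
      rw [Function.update_of_ne this])
  have h2 : ∀ ω : V → CC k N, ((univ.filter fun c : CC k N =>
      (c.2 : ℕ) < b H k N κ T F c.1 v ω).card : ℝ) =
        ∑ j ∈ range k, (b H k N κ T F j v ω : ℝ) := by
    intro ω
    refine card_thr_eq k N (fun j => b H k N κ T F j v ω) fun j _ => ?_
    have := P.b_half j v ω
    have h3 : (b H k N κ T F j v ω : ℝ) ≤ N := by linarith
    exact_mod_cast h3
  have h3 : ∑ ω : V → CC k N, (1 : ℝ) * ((univ.filter fun c : CC k N =>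
      (c.2 : ℕ) < b H k N κ T F c.1 v ω).card : ℝ) =
      ∑ j ∈ range k, ∑ ω : V → CC k N, (b H k N κ T F j v ω : ℝ) := by
    rw [Finset.sum_comm]
    exact Finset.sum_congr rfl fun ω _ => by rw [one_mul, h2]
  rw [h3] at h1
  have h4 : ∑ j ∈ range k, (κ * F j * M / 2 - M) ≤
      ∑ j ∈ range k, ∑ ω : V → CC k N, (b H k N κ T F j v ω : ℝ) :=
    Finset.sum_le_sum fun j hj => P.Eb j (Finset.mem_range.mp hj) v
  have h5 : ∑ j ∈ range k, (κ * F j * M / 2 - M) = κ * S * M / 2 - k * M := by
    rw [Finset.sum_sub_distrib, Finset.sum_const, Finset.card_range, nsmul_eq_mul, hS,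
      Finset.mul_sum, Finset.sum_mul, Finset.sum_div]
  have h6 : ∀ ω : V → CC k N, (1 : ℝ) * (if ω v ∈ (univ.filter fun c : CC k N =>
      (c.2 : ℕ) < b H k N κ T F c.1 v ω) then (1 : ℝ) else 0) =
      if InJ H k N κ T F v ω then (1 : ℝ) else 0 := by
    intro ω
    rw [one_mul]
    by_cases h : InJ H k N κ T F v ω
    · rw [if_pos h, if_pos]
      rw [Finset.mem_filter]
      exact ⟨Finset.mem_univ _, h⟩
    · rw [if_neg h, if_neg]
      rw [Finset.mem_filter]
      exact fun hc => h hc.2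
  have h6' := Finset.sum_congr (rfl : (univ : Finset (V → CC k N)) = univ) fun ω _ => h6 ω
  rw [P.cardC] at h1
  have h6'' := h6'.symm
  simp only [Finset.mem_filter, Finset.mem_univ, true_and] at h1 h6''
  rw [← h6''] at h1
  rw [h5, ← h1] at h4
  have hκe : κ * S * M / 2 = N * k / d * S * M / 2 := by rw [P.κeq]
  rw [hκe] at h4
  have h7 : M * (S / (4 * d)) * (k * N) ≤ N * k / d * S * M / 2 - k * M := by
    have e1 : N * k / d * S * M / 2 - k * M - M * (S / (4 * d)) * (k * N) =
        k * M * (N * S - 4 * d) / (4 * d) := by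
      field_simp
      ring
    have e2 : 0 ≤ k * M * (N * S - 4 * d) / (4 * d) := by
      apply div_nonneg _ (by positivity)
      exact mul_nonneg (by positivity) (by linarith)
    linarith
  have h8 := h7.trans h4
  have hkN : (0 : ℝ) < k * N := by positivity
  nlinarith [h8, hkN]

end

end Pool.Agent.TH447.DG
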