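import Pool.Agent.TH447.DG.Cover

set_option autoImplicit false
set_option linter.unusedSectionVars false
open Classical Finset

/-! The local lemma step: sets covering half of every neighbourhood. -/

namespace Pool.Agent.TH447.DG

variable {V : Type} [Fintype V]
variable {H : V → Finset V} {r : V → ℕ} {d k N : ℕ} {κ T : ℝ} {F : ℕ → ℝ}

lemma Par.bad_prob (P : Par H r d k N κ T F)
    (hN : 4 * (d : ℝ) ≤ N * ∑ j ∈ range k, F j) (hNd : d ≤ N) (m : ℕ)
    (hm : 16 * (d : ℝ) / (∑ j ∈ range k, F j) ≤ m) (U : Finset V) (hU : U.card ≤ d) :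
    ∑ η : Fin m → V → CC k N,
      (if (d : ℝ) / 2 < (rem H k N κ T F U η).card then (1 : ℝ) else 0) ≤
      (Fintype.card (V → CC k N) : ℝ) ^ m *
        Real.exp (-((∑ j ∈ range k, F j) * d / (128 * k ^ 2 * T ^ 2))) := by
  set S := ∑ j ∈ range k, F j with hS
  have hk : 0 < k := P.kpos
  have hS0 : 0 < S := by
    rw [hS]
    exact Finset.sum_pos (fun j _ => P.F0 j) ⟨0, Finset.mem_range.mpr hk⟩
  have hkR : (0 : ℝ) < k := by exact_mod_cast hk
  have hT := P.Tpos
  have hd0 : (0 : ℝ) < d := by exact_mod_cast P.dpos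
  set B : ℝ := 8 * k ^ 2 * T ^ 2 with hB
  have hB0 : 0 < B := by positivity
  set lam : ℝ := S / 8 / (2 * B) with hlam
  have hl : 0 ≤ lam := by positivity
  have h1 := P.copies hN hNd lam hl m U hU
  refine h1.trans ?_
  rw [← hS, ← hB, mul_pow, ← Real.exp_nat_mul, mul_assoc, ← Real.exp_add]
  apply mul_le_mul_of_nonneg_left _ (by positivity)
  apply Real.exp_le_exp.mpr
  have hUd : (U.card : ℝ) ≤ d := by exact_mod_cast hU
  have e1 : lam * ((U.card : ℝ) - d / 2) ≤ lam * (d / 2) :=
    mul_le_mul_of_nonneg_left (by linarith) hl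
  have e2 : -(lam * (S / 8)) + lam ^ 2 * B / 2 = -(3 * S ^ 2 / (512 * B)) := by
    rw [hlam]; field_simp; ring
  rw [e2]
  have e3 : (m : ℝ) * -(3 * S ^ 2 / (512 * B)) ≤ (16 * (d : ℝ) / S) * -(3 * S ^ 2 / (512 * B)) := by
    have : 0 ≤ 3 * S ^ 2 / (512 * B) := by positivity
    nlinarith
  have e4 : (16 * (d : ℝ) / S) * -(3 * S ^ 2 / (512 * B)) + lam * (d / 2) =
      -(S * d / (16 * B)) := by
    rw [hlam]; field_simp; ring
  have e5 : S * d / (16 * B) = S * d / (128 * k ^ 2 * T ^ 2) := by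
    rw [hB]; congr 1; ring
  linarith

theorem Par.cover (P : Par H r d k N κ T F)
    (hN : 4 * (d : ℝ) ≤ N * ∑ j ∈ range k, F j) (hNd : d ≤ N) (m Δ : ℕ)
    (hm : 16 * (d : ℝ) / (∑ j ∈ range k, F j) ≤ m)
    (hΔ : ∀ z, (univ.filter fun w => z ∈ H w).card ≤ Δ)
    (hL : 4 * Real.exp (-((∑ j ∈ range k, F j) * d / (128 * k ^ 2 * T ^ 2))) *
      (((d + 1) * (Δ + 1) : ℕ) : ℝ) ^ (2 * k + 1) ≤ 1) :
    ∃ J : Fin m → V → Prop, (∀ j, ∀ v, ∀ u ∈ H v, J j v → ¬ J j u) ∧
      ∀ w, ((((H w).filter fun u => ∀ j, ¬ J j u).card : ℕ) : ℝ) ≤ d / 2 := by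
  set p := Real.exp (-((∑ j ∈ range k, F j) * d / (128 * k ^ 2 * T ^ 2))) with hp
  have hcard : (Fintype.card (V → Fin m → CC k N) : ℝ) =
      (Fintype.card (V → CC k N) : ℝ) ^ m := by
    rw [Fintype.card_congr (Equiv.piComm (fun (_ : V) (_ : Fin m) => CC k N)), Fintype.card_fun,
      Fintype.card_fin, Nat.cast_pow]
  have hC0 : 0 < Fintype.card (CC k N) := by
    have := P.cardCpos; exact_mod_cast this
  obtain ⟨ω, hω⟩ := Pool.Agent.Helper635.LLL.lll (T := V) (C := Fin m → CC k N) (ι := V) univ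
    (fun w ω => (d : ℝ) / 2 < (rem H k N κ T F (H w) (fun j v => ω v j)).card)
    (fun w => D H (2 * k + 1) w)
    (by
      intro w _ ω ω' h
      have h1 : rem H k N κ T F (H w) (fun j v => ω v j) =
          rem H k N κ T F (H w) (fun j v => ω' v j) := by
        unfold rem
        refine Finset.filter_congr fun u hu => ?_
        refine forall_congr' fun j => not_congr ?_
        apply InJ_dep
        · show ω u j = ω' u j
          rw [h u (H_subset_D H (2 * k) w hu)]
        · intro x hx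
          show ω x j = ω' x j
          rw [h x (D_subset_D H hu hx)]
      intro h2
      rwa [h1] at h2)
    p (((d + 1) * (Δ + 1)) ^ (2 * k + 1)) (Real.exp_pos _).le
    (by
      intro w _
      rw [hcard]
      have h1 := P.bad_prob hN hNd m hm (H w) (P.hd w)
      rw [mul_comm] at h1
      refine le_trans (le_of_eq ?_) h1
      rw [← (Equiv.piComm (fun (_ : V) (_ : Fin m) => CC k N)).sum_comp]
      unfold Pool.Agent.Helper635.LLL.cnt Pool.Agent.Helper635.LLL.ev
      rw [Finset.card_filter, Nat.cast_sum]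
      refine Finset.sum_congr rfl fun ω _ => ?_
      by_cases h : (d : ℝ) / 2 < (rem H k N κ T F (H w) (fun j v => ω v j)).card
      · rw [if_pos h, if_pos]
        · simp
        · exact h
      · rw [if_neg h, if_neg]
        · simp
        · exact h)
    (by
      intro w _
      have hsub : (univ.filter fun w' => ¬ Disjoint (D H (2 * k + 1) w) (D H (2 * k + 1) w')) ⊆
          (D H (2 * k + 1) w).biUnion (fun z => univ.filter fun w' => z ∈ D H (2 * k + 1) w') := by
        intro w' hw'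
        rw [Finset.mem_filter, Finset.not_disjoint_iff] at hw'
        obtain ⟨-, z, hz1, hz2⟩ := hw'
        rw [Finset.mem_biUnion]
        exact ⟨z, hz1, by rw [Finset.mem_filter]; exact ⟨Finset.mem_univ _, hz2⟩⟩
      refine (Finset.card_le_card hsub).trans (Finset.card_biUnion_le.trans ?_)
      calc ∑ z ∈ D H (2 * k + 1) w, (univ.filter fun w' => z ∈ D H (2 * k + 1) w').card
          ≤ ∑ z ∈ D H (2 * k + 1) w, (Δ + 1) ^ (2 * k + 1) :=
            Finset.sum_le_sum fun z _ => by have := D_rev H hΔ (2 * k + 1) z; omega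
        _ = (D H (2 * k + 1) w).card * (Δ + 1) ^ (2 * k + 1) := by
            rw [Finset.sum_const, smul_eq_mul]
        _ ≤ (d + 1) ^ (2 * k + 1) * (Δ + 1) ^ (2 * k + 1) :=
            Nat.mul_le_mul_right _ (by have := D_card H P.hd (2 * k + 1) w; omega)
        _ = ((d + 1) * (Δ + 1)) ^ (2 * k + 1) := by rw [mul_pow])
    (by
      push_cast at hL ⊢
      exact hL)
    (Nat.one_le_pow _ _ (by positivity))
    (by
      rw [Fintype.card_fun, Fintype.card_fun]
      exact pow_pos (pow_pos hC0 _) _)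
  refine ⟨fun j u => InJ H k N κ T F u (fun v => ω v j), ?_, ?_⟩
  · intro j v u hu h1 h2
    exact InJ_indep H k N κ T F hu h1 h2
  · intro w
    have := hω w (Finset.mem_univ _)
    exact not_lt.mp this

end Pool.Agent.TH447.DG
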