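import Pool.Agent.TH447.DG.Loc

set_option autoImplicit false
set_option linter.unusedSectionVars false
open Classical Finset

/-! Choice of the factors, halving step, recursion, greedy step. -/

namespace Pool.Agent.TH447.DG

/-- the partial sums of the factors -/
noncomputable def SS : ℕ → ℝ
  | 0 => 0
  | n + 1 => SS n + Real.exp (-(8 * (1 + SS n)))

lemma SS_eq_sum (n : ℕ) : ∑ l ∈ range n, Real.exp (-(8 * (1 + SS l))) = SS n := by
  induction n with
  | zero => simp [SS]
  | succ n ih => rw [Finset.sum_range_succ, ih]; rfl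

lemma SS_mono : Monotone SS := by
  apply monotone_nat_of_le_succ
  intro n
  show SS n ≤ SS n + Real.exp (-(8 * (1 + SS n)))
  have := Real.exp_pos (-(8 * (1 + SS n)))
  linarith

lemma SS_lower (s0 : ℝ) (k : ℕ) (h : s0 ≤ k * Real.exp (-(8 * (1 + s0)))) : s0 ≤ SS k := by
  by_contra hcon
  push Not at hcon
  have h1 : ∀ n ≤ k, (n : ℝ) * Real.exp (-(8 * (1 + s0))) ≤ SS n := by
    intro n
    induction n with
    | zero => intro _; simp [SS]
    | succ n ih =>
      intro hn
      have h2 := ih (by omega)
      have h3 : SS n ≤ SS k := SS_mono (by omega)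
      have h4 : Real.exp (-(8 * (1 + s0))) ≤ Real.exp (-(8 * (1 + SS n))) := by
        apply Real.exp_le_exp.mpr; linarith
      show ((n + 1 : ℕ) : ℝ) * _ ≤ SS n + Real.exp (-(8 * (1 + SS n)))
      push_cast
      linarith
  have := h1 k le_rfl
  linarith

/-- the factors -/
noncomputable def FF (k i : ℕ) : ℝ := Real.exp (-(8 * (1 + SS (k - 1 - i))))

lemma FF_sum (k : ℕ) : ∑ j ∈ range k, FF k j = SS k := by
  unfold FF
  rw [← SS_eq_sum k]
  exact Finset.sum_range_reflect (fun l => Real.exp (-(8 * (1 + SS l)))) k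

lemma FF_sum_Ico (k i : ℕ) (hi : i < k) : ∑ j ∈ Ico (i + 1) k, FF k j = SS (k - 1 - i) := by
  unfold FF
  rw [Finset.sum_Ico_reflect (fun l => Real.exp (-(8 * (1 + SS l)))) (i + 1) (by omega : k ≤ k - 1 + 1)]
  have e1 : k - 1 + 1 - k = 0 := by omega
  have e2 : k - 1 + 1 - (i + 1) = k - 1 - i := by omega
  rw [e1, e2, Nat.Ico_zero_eq_range, SS_eq_sum]

variable {V : Type} [Fintype V]

/-- halving step -/
theorem halving (H : V → Finset V) (r : V → ℕ) (d k m Δ : ℕ) (s0 : ℝ)
    (hr : ∀ v, ∀ u ∈ H v, r u < r v) (hd : ∀ v, (H v).card ≤ d)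
    (htf : ∀ v, ∀ u ∈ H v, Disjoint (H u) (H v))
    (hΔ : ∀ z, (univ.filter fun w => z ∈ H w).card ≤ Δ)
    (hk : 0 < k) (hs0 : 0 < s0) (hs : s0 ≤ k * Real.exp (-(8 * (1 + s0))))
    (hdk : 2 * k * Real.exp (8 * k) ≤ d) (hm : 16 * (d : ℝ) / s0 ≤ m)
    (hL : 4 * Real.exp (-(s0 * d / (128 * k ^ 2 * Real.exp (8 * k) ^ 2))) *
      (((d + 1) * (Δ + 1) : ℕ) : ℝ) ^ (2 * k + 1) ≤ 1) :
    ∃ J : Fin m → V → Prop, (∀ j, ∀ v, ∀ u ∈ H v, J j v → ¬ J j u) ∧
      ∀ w, ((H w).filter fun u => ∀ j, ¬ J j u).card ≤ d / 2 := by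
  have hkR : (0 : ℝ) < k := by exact_mod_cast hk
  have hdR : (0 : ℝ) < d := lt_of_lt_of_le (by positivity) hdk
  have hd0 : 0 < d := by exact_mod_cast hdR
  have hSk : s0 ≤ SS k := SS_lower s0 k hs
  have hSk0 : 0 < SS k := lt_of_lt_of_le hs0 hSk
  set N : ℕ := d + ⌈4 * (d : ℝ) / s0⌉₊ with hN
  have hNd : d ≤ N := by omega
  have hN4 : 4 * (d : ℝ) ≤ N * s0 := by
    have h1 : 4 * (d : ℝ) / s0 ≤ (⌈4 * (d : ℝ) / s0⌉₊ : ℝ) := Nat.le_ceil _
    have h2 : (⌈4 * (d : ℝ) / s0⌉₊ : ℝ) ≤ N := by
      rw [hN]; push_cast; linarith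
    have h3 := h1.trans h2
    rwa [div_le_iff₀ hs0] at h3
  have hNR : (0 : ℝ) < N := lt_of_lt_of_le hdR (by exact_mod_cast hNd)
  have P : Par H r d k N (N * k / d) (Real.exp (8 * k)) (FF k) :=
    { hr := hr, hd := hd, htf := htf, dpos := hd0, kpos := hk
      Npos := by exact_mod_cast hNR
      κeq := rfl, Teq := rfl
      hcap := by
        rw [div_mul_eq_mul_div, div_le_div_iff₀ hdR (by norm_num)]
        nlinarith
      F0 := fun i => Real.exp_pos _
      FS := by
        intro i hi
        rw [FF_sum_Ico k i hi, FF, ← Real.exp_add]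
        simp }
  obtain ⟨J, hJ1, hJ2⟩ := P.cover (m := m) (Δ := Δ)
    (by
      rw [FF_sum]
      refine hN4.trans ?_
      exact mul_le_mul_of_nonneg_left hSk hNR.le)
    hNd
    (by
      rw [FF_sum]
      refine le_trans ?_ hm
      exact div_le_div_of_nonneg_left (by positivity) hs0 hSk)
    hΔ
    (by
      rw [FF_sum]
      refine le_trans ?_ hL
      apply mul_le_mul_of_nonneg_right _ (by positivity)
      apply mul_le_mul_of_nonneg_left _ (by norm_num)
      apply Real.exp_le_exp.mpr
      apply neg_le_neg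
      apply div_le_div_of_nonneg_right _ (by positivity)
      exact mul_le_mul_of_nonneg_right hSk hdR.le)
  refine ⟨J, hJ1, fun w => ?_⟩
  have h1 := hJ2 w
  rw [Nat.le_div_iff_mul_le (by norm_num)]
  have h2 : ((((H w).filter fun u => ∀ j, ¬ J j u).card * 2 : ℕ) : ℝ) ≤ (d : ℕ) := by
    push_cast; linarith
  exact_mod_cast h2

/-- greedy colouring -/
theorem greedy (H : V → Finset V) (r : V → ℕ) (D : ℕ)
    (hr : ∀ v, ∀ u ∈ H v, r u < r v) (hd : ∀ v, (H v).card ≤ D) :
    ∃ f : V → ℕ, (∀ v, f v < D + 1) ∧ ∀ v, ∀ u ∈ H v, f u ≠ f v := by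
  have key : ∀ n : ℕ, ∃ f : V → ℕ, (∀ v, f v < D + 1) ∧ ∀ v, r v < n → ∀ u ∈ H v, f u ≠ f v := by
    intro n
    induction n with
    | zero => exact ⟨fun _ => 0, fun _ => Nat.succ_pos _, fun v hv => by omega⟩
    | succ n ih =>
      obtain ⟨f, hf1, hf2⟩ := ih
      have hfree : ∀ v, ∃ c, c < D + 1 ∧ c ∉ (H v).image f := by
        intro v
        by_contra hcon
        push Not at hcon
        have hsub : range (D + 1) ⊆ (H v).image f := by
          intro c hc
          exact hcon c (Finset.mem_range.mp hc)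
        have h1 := Finset.card_le_card hsub
        have h2 : ((H v).image f).card ≤ (H v).card := Finset.card_image_le
        rw [Finset.card_range] at h1
        have := hd v
        omega
      choose g hg1 hg2 using hfree
      refine ⟨fun v => if r v = n then g v else f v, fun v => ?_, fun v hv u hu => ?_⟩
      · by_cases h : r v = n
        · simp only [h, if_true]; exact hg1 v
        · simp only [h, if_false]; exact hf1 v
      · have hur := hr v u hu
        have hun : r u ≠ n := by omega
        by_cases h : r v = n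
        · simp only [h, hun, if_true, if_false]
          intro he
          apply hg2 v
          rw [← he]
          exact Finset.mem_image_of_mem f hu
        · simp only [h, hun, if_false]
          exact hf2 v (by omega) u hu
  obtain ⟨f, hf1, hf2⟩ := key (univ.sup r + 1)
  exact ⟨f, hf1, fun v u hu => hf2 v (Nat.lt_succ_of_le (Finset.le_sup (Finset.mem_univ v))) u hu⟩

/-- recursion: halve the back degree until it is at most `d₁`, then colour greedily -/
theorem recursion (r : V → ℕ) (d d₁ k Δ : ℕ) (s0 M : ℝ)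
    (hk : 0 < k) (hs0 : 0 < s0) (hs : s0 ≤ k * Real.exp (-(8 * (1 + s0))))
    (hdk : 2 * k * Real.exp (8 * k) ≤ d₁) (hM : 16 / s0 + 1 / d₁ ≤ M)
    (hL : 4 * Real.exp (-(s0 * d₁ / (128 * k ^ 2 * Real.exp (8 * k) ^ 2))) *
      (((d + 1) * (Δ + 1) : ℕ) : ℝ) ^ (2 * k + 1) ≤ 1) :
    ∀ d' : ℕ, d' ≤ d → ∀ H : V → Finset V,
      (∀ v, ∀ u ∈ H v, r u < r v) → (∀ v, (H v).card ≤ d') →
      (∀ v, ∀ u ∈ H v, Disjoint (H u) (H v)) →
      (∀ z, (univ.filter fun w => z ∈ H w).card ≤ Δ) →
      ∃ f : V → ℕ, (∀ v, (f v : ℝ) < 2 * M * d' + d₁ + 1) ∧ ∀ v, ∀ u ∈ H v, f u ≠ f v := by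
  have hkR : (0 : ℝ) < k := by exact_mod_cast hk
  have hd1R : (0 : ℝ) < d₁ := lt_of_lt_of_le (by positivity) hdk
  have hM0 : 0 < M := lt_of_lt_of_le (by positivity) hM
  intro d'
  induction d' using Nat.strong_induction_on with
  | _ d' ih =>
    intro hd'd H hr hd htf hΔ
    rcases Nat.lt_or_ge d₁ d' with hlt | hge
    · -- halving step
      have hd'0 : 0 < d' := by omega
      have hd'R : (0 : ℝ) < d' := by exact_mod_cast hd'0
      have hdd : (d₁ : ℝ) ≤ d' := by exact_mod_cast hlt.le
      set m : ℕ := ⌈16 * (d' : ℝ) / s0⌉₊ with hm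
      have hmM : (m : ℝ) ≤ M * d' := by
        have h1 : (m : ℝ) < 16 * (d' : ℝ) / s0 + 1 := Nat.ceil_lt_add_one (by positivity)
        have h2 : (16 / s0 + 1 / d₁) * (d' : ℝ) ≤ M * d' :=
          mul_le_mul_of_nonneg_right hM hd'R.le
        have h3 : (1 : ℝ) ≤ 1 / d₁ * d' := by
          rw [one_div, inv_mul_eq_div, le_div_iff₀ hd1R]
          linarith
        have h4 : (16 / s0 + 1 / d₁) * (d' : ℝ) = 16 * (d' : ℝ) / s0 + 1 / d₁ * d' := by ring
        linarith
      obtain ⟨J, hJ1, hJ2⟩ := halving H r d' k m Δ s0 hr hd htf hΔ hk hs0 hs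
        (hdk.trans hdd)
        (Nat.le_ceil _)
        (by
          refine le_trans ?_ hL
          apply mul_le_mul
          · apply mul_le_mul_of_nonneg_left _ (by norm_num)
            apply Real.exp_le_exp.mpr
            apply neg_le_neg
            apply div_le_div_of_nonneg_right _ (by positivity)
            exact mul_le_mul_of_nonneg_left hdd hs0.le
          · apply pow_le_pow_left₀ (by positivity)
            exact_mod_cast Nat.mul_le_mul_right _ (by omega)
          · positivity
          · positivity)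
      set R : Finset V := univ.filter fun u => ∀ j, ¬ J j u with hR
      set H' : V → Finset V := fun v => if v ∈ R then (H v).filter (fun u => ∀ j, ¬ J j u) else ∅ with hH'
      have hsub : ∀ v, H' v ⊆ H v := by
        intro v
        simp only [hH']
        split_ifs
        · exact Finset.filter_subset _ _
        · exact Finset.empty_subset _
      obtain ⟨f, hf1, hf2⟩ := ih (d' / 2) (by omega) (by omega) H'
        (fun v u hu => hr v u (hsub v hu))
        (by
          intro v
          simp only [hH']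
          split_ifs
          · exact hJ2 v
          · simp)
        (fun v u hu => Finset.disjoint_of_subset_left (hsub u)
          (Finset.disjoint_of_subset_right (hsub v) (htf v u (hsub v hu))))
        (fun z => le_trans (Finset.card_le_card (by
          intro w hw
          rw [Finset.mem_filter] at hw ⊢
          exact ⟨hw.1, hsub w hw.2⟩)) (hΔ z))
      have hhalf : (((d' / 2 : ℕ)) : ℝ) ≤ d' / 2 := Nat.cast_div_le
      have hMhalf : 2 * M * (((d' / 2 : ℕ)) : ℝ) ≤ M * d' := by
        have := mul_le_mul_of_nonneg_left hhalf (by positivity : 0 ≤ 2 * M)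
        linarith
      refine ⟨fun v => if h : ∃ j, J j v then ((Classical.choose h : Fin m) : ℕ) else m + f v,
        fun v => ?_, fun v u hu => ?_⟩
      · by_cases h : ∃ j, J j v
        · simp only [h, dif_pos]
          have h1 : (((Classical.choose h : Fin m) : ℕ) : ℝ) < m := by
            exact_mod_cast (Classical.choose h).2
          have h2 : 0 < M * d' := by positivity
          linarith
        · simp only [h, dif_neg, not_false_iff]
          have h1 := hf1 v
          push_cast
          linarith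
      · by_cases h : ∃ j, J j v
        · by_cases h' : ∃ j, J j u
          · simp only [h, h', dif_pos]
            intro he
            have e := Fin.ext he
            have h1 := Classical.choose_spec h
            have h2 := Classical.choose_spec h'
            rw [e] at h2
            exact hJ1 _ v u hu h1 h2
          · simp only [h, h', dif_pos, dif_neg, not_false_iff]
            have := (Classical.choose h).2
            omega
        · by_cases h' : ∃ j, J j u
          · simp only [h, h', dif_pos, dif_neg, not_false_iff]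
            have := (Classical.choose h').2
            omega
          · simp only [h, h', dif_neg, not_false_iff]
            have hvR : v ∈ R := by
              rw [hR, Finset.mem_filter]
              exact ⟨Finset.mem_univ _, fun j hj => h ⟨j, hj⟩⟩
            have huH : u ∈ H' v := by
              simp only [hH', hvR, if_true, Finset.mem_filter]
              exact ⟨hu, fun j hj => h' ⟨j, hj⟩⟩
            have := hf2 v u huH
            omega
    · obtain ⟨f, hf1, hf2⟩ := greedy H r d' hr hd
      refine ⟨f, fun v => ?_, hf2⟩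
      have h1 : ((f v : ℕ) : ℝ) < ((d' + 1 : ℕ) : ℝ) := by exact_mod_cast hf1 v
      have h2 : (d' : ℝ) ≤ d₁ := by exact_mod_cast hge
      have h3 : 0 ≤ 2 * M * d' := by positivity
      push_cast at h1
      linarith

/-! ### graphs -/

theorem degen_order (G : SimpleGraph V) (d : ℕ)
    (hG : ∀ S : Finset V, S.Nonempty → ∃ v ∈ S, (G.neighborSet v ∩ (S : Set V)).ncard ≤ d) :
    ∃ r : V → ℕ, Function.Injective r ∧
      ∀ v, (univ.filter fun u => G.Adj v u ∧ r u < r v).card ≤ d := by
  have key : ∀ n : ℕ, ∀ S : Finset V, S.card = n → ∃ r : V → ℕ,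
      (∀ v ∈ S, r v < n) ∧ (∀ u ∈ S, ∀ v ∈ S, r u = r v → u = v) ∧
      ∀ v ∈ S, (S.filter fun u => G.Adj v u ∧ r u < r v).card ≤ d := by
    intro n
    induction n with
    | zero =>
      intro S hS
      have : S = ∅ := Finset.card_eq_zero.mp hS
      subst this
      exact ⟨fun _ => 0, by simp, by simp, by simp⟩
    | succ n ih =>
      intro S hS
      have hne : S.Nonempty := by
        rw [← Finset.card_pos]; omega
      obtain ⟨v0, hv0, hcard⟩ := hG S hne
      obtain ⟨r, hr1, hr2, hr3⟩ := ih (S.erase v0) (by rw [Finset.card_erase_of_mem hv0]; omega)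
      have hne' : ∀ v ∈ S, v ≠ v0 → v ∈ S.erase v0 := fun v hv h => Finset.mem_erase.mpr ⟨h, hv⟩
      refine ⟨fun v => if v = v0 then n else r v, ?_, ?_, ?_⟩
      · intro v hv
        by_cases h : v = v0
        · simp [h]
        · simp only [h, if_false]
          have := hr1 v (hne' v hv h)
          omega
      · intro u hu v hv huv
        by_cases h : u = v0
        · by_cases h' : v = v0
          · rw [h, h']
          · simp only [h, h', if_true, if_false] at huv
            have := hr1 v (hne' v hv h')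
            omega
        · by_cases h' : v = v0
          · simp only [h, h', if_true, if_false] at huv
            have := hr1 u (hne' u hu h)
            omega
          · simp only [h, h', if_false] at huv
            exact hr2 u (hne' u hu h) v (hne' v hv h') huv
      · intro v hv
        by_cases h : v = v0
        · subst h
          refine le_trans ?_ hcard
          rw [← Set.ncard_coe_finset]
          apply Set.ncard_le_ncard _ (Set.toFinite _)
          intro u hu
          simp only [Finset.coe_filter, Set.mem_setOf_eq] at hu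
          exact ⟨hu.2.1, hu.1⟩
        · refine le_trans (Finset.card_le_card ?_) (hr3 v (hne' v hv h))
          intro u hu
          rw [Finset.mem_filter] at hu ⊢
          obtain ⟨hu1, hu2, hu3⟩ := hu
          have hrv := hr1 v (hne' v hv h)
          by_cases h' : u = v0
          · simp only [h', h, if_true, if_false] at hu3
            omega
          · simp only [h', h, if_false] at hu3
            exact ⟨hne' u hu1 h', hu2, hu3⟩
  obtain ⟨r, -, hr2, hr3⟩ := key _ univ rfl
  exact ⟨r, fun u v h => hr2 u (Finset.mem_univ _) v (Finset.mem_univ _) h,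
    fun v => hr3 v (Finset.mem_univ _)⟩

theorem colour_general (G : SimpleGraph V) (d d₁ k Δ : ℕ) (s0 : ℝ)
    (htri : G.CliqueFree 3)
    (hG : ∀ S : Finset V, S.Nonempty → ∃ v ∈ S, (G.neighborSet v ∩ (S : Set V)).ncard ≤ d)
    (hΔ : ∀ v : V, (G.neighborSet v).ncard ≤ Δ)
    (hk : 0 < k) (hs0 : 0 < s0) (hs : s0 ≤ k * Real.exp (-(8 * (1 + s0))))
    (hdk : 2 * k * Real.exp (8 * k) ≤ d₁)
    (hL : 4 * Real.exp (-(s0 * d₁ / (128 * k ^ 2 * Real.exp (8 * k) ^ 2))) *
      (((d + 1) * (Δ + 1) : ℕ) : ℝ) ^ (2 * k + 1) ≤ 1) :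
    ∃ n : ℕ, G.Colorable n ∧ (n : ℝ) ≤ 32 * d / s0 + 2 * d / d₁ + d₁ + 2 := by
  obtain ⟨r, hrinj, hr⟩ := degen_order G d hG
  set H : V → Finset V := fun v => univ.filter fun u => G.Adj v u ∧ r u < r v with hH
  obtain ⟨f, hf1, hf2⟩ := recursion r d d₁ k Δ s0 (16 / s0 + 1 / d₁) hk hs0 hs hdk le_rfl hL
    d le_rfl H
    (fun v u hu => by
      simp only [hH, Finset.mem_filter] at hu
      exact hu.2.2)
    hr
    (fun v u hu => by
      rw [Finset.disjoint_left]
      intro w hw1 hw2
      simp only [hH, Finset.mem_filter] at hu hw1 hw2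
      refine htri {v, u, w} ?_
      rw [SimpleGraph.is3Clique_triple_iff]
      exact ⟨hu.2.1, hw2.2.1, hw1.2.1⟩)
    (fun z => by
      refine le_trans ?_ (hΔ z)
      rw [← Set.ncard_coe_finset]
      apply Set.ncard_le_ncard _ (Set.toFinite _)
      intro w hw
      simp only [hH, Finset.coe_filter, Finset.mem_filter, Finset.mem_univ, true_and,
        Set.mem_setOf_eq] at hw
      exact hw.1.symm)
  set X : ℝ := 2 * (16 / s0 + 1 / d₁) * d + d₁ + 1 with hX
  have hX0 : 0 ≤ X := by positivity
  refine ⟨⌈X⌉₊, ?_, ?_⟩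
  · refine ⟨SimpleGraph.Coloring.mk (fun v => (⟨f v, ?_⟩ : Fin ⌈X⌉₊)) ?_⟩
    · have h1 : ((f v : ℕ) : ℝ) < (⌈X⌉₊ : ℝ) := lt_of_lt_of_le (hf1 v) (Nat.le_ceil X)
      exact_mod_cast h1
    · intro v w hvw he
      have he' : f v = f w := congrArg Fin.val he
      rcases lt_trichotomy (r v) (r w) with h | h | h
      · exact hf2 w v (by simp only [hH, Finset.mem_filter]; exact ⟨Finset.mem_univ _, hvw.symm, h⟩) he'
      · exact hvw.ne (hrinj h)
      · exact hf2 v w (by simp only [hH, Finset.mem_filter]; exact ⟨Finset.mem_univ _, hvw, h⟩) he'.symm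
  · have h1 := Nat.ceil_lt_add_one hX0
    have h2 : X = 32 * d / s0 + 2 * d / d₁ + d₁ + 1 := by rw [hX]; ring
    linarith

end Pool.Agent.TH447.DG
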