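import Mathlib

set_option autoImplicit false
open Classical Finset

/-! Uniform product measure on `V → C`: integrating out one coordinate, and products of
martingale factors. -/

namespace Pool.Agent.TH447.DG

variable {V C : Type} [Fintype V] [Fintype C]

/-- the involution used to integrate out one coordinate -/
noncomputable def swp (z : V) : (V → C) × C ≃ (V → C) × C where
  toFun p := (Function.update p.1 z p.2, p.1 z)
  invFun p := (Function.update p.1 z p.2, p.1 z)
  left_inv p := by
    ext x <;> simp
  right_inv p := by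
    ext x <;> simp

lemma upd_sum (h : (V → C) → ℝ) (z : V) :
    ∑ ω, ∑ c, h (Function.update ω z c) = Fintype.card C * ∑ ω, h ω := by
  have h1 : ∑ ω, ∑ c, h (Function.update ω z c) = ∑ p : (V → C) × C, h (swp z p).1 := by
    rw [Fintype.sum_prod_type]; rfl
  have h2 : ∑ p : (V → C) × C, h (swp z p).1 = ∑ p : (V → C) × C, h p.1 :=
    Equiv.sum_comp (swp z) (fun p => h p.1)
  rw [h1, h2, Fintype.sum_prod_type, Finset.mul_sum]
  refine Finset.sum_congr rfl fun ω _ => ?_
  simp only [Finset.sum_const, Finset.card_univ, nsmul_eq_mul]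

/-- martingale factor: the coordinate `x` avoids the set `B` -/
noncomputable def phi (x : C) (B : Finset C) : ℝ :=
  if x ∈ B then 0 else 1 / (1 - (B.card : ℝ) / Fintype.card C)

lemma phi_nonneg (x : C) (B : Finset C) : 0 ≤ phi x B := by
  unfold phi
  split_ifs
  · exact le_rfl
  · apply one_div_nonneg.mpr
    have h1 : (B.card : ℝ) ≤ Fintype.card C := by exact_mod_cast Finset.card_le_univ B
    have h2 : (B.card : ℝ) / Fintype.card C ≤ 1 :=
      div_le_one_of_le₀ h1 (Nat.cast_nonneg _)
    linarith

lemma phi_empty (x : C) : phi x (∅ : Finset C) = 1 := by simp [phi]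

lemma sum_phi (B : Finset C) (hB : B.card < Fintype.card C) :
    ∑ c, phi c B = Fintype.card C := by
  have hC : (0 : ℝ) < Fintype.card C := by
    have : 0 < Fintype.card C := by omega
    exact_mod_cast this
  have h1 : (B.card : ℝ) < Fintype.card C := by exact_mod_cast hB
  have h2 : ∑ c, phi c B = ∑ c ∈ Bᶜ, 1 / (1 - (B.card : ℝ) / Fintype.card C) := by
    rw [← Finset.sum_add_sum_compl B]
    rw [Finset.sum_eq_zero (s := B) (fun c hc => by simp [phi, hc]), zero_add]
    refine Finset.sum_congr rfl fun c hc => ?_
    have : c ∉ B := by simpa using hc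
    simp [phi, this]
  rw [h2, Finset.sum_const, nsmul_eq_mul, Finset.card_compl, Nat.cast_sub hB.le]
  have h3 : (1 - (B.card : ℝ) / Fintype.card C) ≠ 0 := by
    have : (B.card : ℝ) / Fintype.card C < 1 := by rw [div_lt_one hC]; exact h1
    linarith
  have h4 : (Fintype.card C : ℝ) - B.card ≠ 0 := by
    have : (0 : ℝ) < Fintype.card C - B.card := by linarith
    exact this.ne'
  field_simp

/-- integrate out one martingale factor -/
lemma step (z : V) (F : (V → C) → ℝ) (B : (V → C) → Finset C)
    (hF : ∀ ω c, F (Function.update ω z c) = F ω)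
    (hB : ∀ ω c, B (Function.update ω z c) = B ω)
    (hc : ∀ ω, (B ω).card < Fintype.card C) :
    ∑ ω, F ω * phi (ω z) (B ω) = ∑ ω, F ω := by
  by_cases hC : Fintype.card C = 0
  · have : IsEmpty ((V → C)) := ⟨fun ω => by have := hc ω; omega⟩
    simp
  have hC' : (Fintype.card C : ℝ) ≠ 0 := by exact_mod_cast hC
  have h1 := upd_sum (fun ω => F ω * phi (ω z) (B ω)) z
  have h2 : ∑ ω : V → C, ∑ c, F (Function.update ω z c) *
      phi (Function.update ω z c z) (B (Function.update ω z c)) =
      ∑ ω : V → C, Fintype.card C * F ω := by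
    refine Finset.sum_congr rfl fun ω _ => ?_
    have : ∀ c, F (Function.update ω z c) *
      phi (Function.update ω z c z) (B (Function.update ω z c)) = F ω * phi c (B ω) := by
      intro c; rw [hF, hB]; simp
    rw [Finset.sum_congr rfl fun c _ => this c, ← Finset.mul_sum, sum_phi _ (hc ω)]
    ring
  rw [h2, ← Finset.mul_sum] at h1
  exact (mul_left_cancel₀ hC' h1).symm

/-- products of martingale factors have mean one -/
lemma mart (r : V → ℕ) (B : V → (V → C) → Finset C)
    (hB : ∀ z ω ω', (∀ u, r u < r z → ω u = ω' u) → B z ω = B z ω')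
    (hc : ∀ z ω, (B z ω).card < Fintype.card C) (S : Finset V) :
    ∑ ω : V → C, ∏ z ∈ S, phi (ω z) (B z ω) = Fintype.card (V → C) := by
  induction hn : S.card using Nat.strong_induction_on generalizing S with
  | _ n ih =>
    rcases S.eq_empty_or_nonempty with rfl | hne
    · simp
    · obtain ⟨z, hz, hmax⟩ := Finset.exists_max_image S r hne
      have h1 : ∀ ω : V → C, ∏ y ∈ S, phi (ω y) (B y ω) =
          (∏ y ∈ S.erase z, phi (ω y) (B y ω)) * phi (ω z) (B z ω) := by
        intro ω; rw [Finset.prod_erase_mul _ _ hz]
      rw [Finset.sum_congr rfl fun ω _ => h1 ω]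
      rw [step z (fun ω => ∏ y ∈ S.erase z, phi (ω y) (B y ω)) (B z)]
      · exact ih _ (by rw [← hn]; exact Finset.card_erase_lt_of_mem hz) _ rfl
      · intro ω c
        refine Finset.prod_congr rfl fun y hy => ?_
        have hyz : y ≠ z := (Finset.mem_erase.mp hy).1
        have hyS : y ∈ S := (Finset.mem_erase.mp hy).2
        rw [Function.update_of_ne hyz]
        congr 1
        apply hB
        intro u hu
        have : u ≠ z := by
          rintro rfl
          have := hmax y hyS
          omega
        rw [Function.update_of_ne this]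
      · intro ω c
        apply hB
        intro u hu
        have : u ≠ z := by rintro rfl; omega
        rw [Function.update_of_ne this]
      · exact hc z

/-- integrate out one coordinate against an event with a random threshold -/
lemma mem_sum (z : V) (F : (V → C) → ℝ) (B : (V → C) → Finset C)
    (hF : ∀ ω c, F (Function.update ω z c) = F ω)
    (hB : ∀ ω c, B (Function.update ω z c) = B ω) :
    (Fintype.card C : ℝ) * ∑ ω, F ω * (if ω z ∈ B ω then 1 else 0) =
      ∑ ω, F ω * ((B ω).card : ℝ) := by
  have h1 := upd_sum (fun ω => F ω * (if ω z ∈ B ω then (1 : ℝ) else 0)) z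
  rw [← h1]
  refine Finset.sum_congr rfl fun ω _ => ?_
  have : ∀ c, F (Function.update ω z c) *
      (if Function.update ω z c z ∈ B (Function.update ω z c) then (1 : ℝ) else 0)
        = F ω * (if c ∈ B ω then 1 else 0) := by
    intro c; rw [hF, hB]; simp
  rw [Finset.sum_congr rfl fun c _ => this c, ← Finset.mul_sum]
  congr 1
  simp

end Pool.Agent.TH447.DG
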