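import Pool.Agent.TH447.DG.Prob

set_option autoImplicit false
set_option linter.unusedSectionVars false
open Classical Finset

/-! The random thresholds `a` (preliminary) and `b` (final). -/

namespace Pool.Agent.TH447.DG

variable {V : Type} [Fintype V] (H : V → Finset V) (k N : ℕ) (κ T : ℝ) (F : ℕ → ℝ)

/-- the seeds of one vertex: a type and a value -/
abbrev CC (k N : ℕ) : Type := Fin k × Fin N

/-- one step of the recursion for the preliminary thresholds -/
noncomputable def aStep (ω : V → CC k N) (i : ℕ) (rec : ∀ j, j < i → V → ℕ) (v : V) : ℕ :=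
  if ∏ u ∈ H v, phi (ω u) (univ.filter
      fun c : CC k N => ∃ h : (c.1 : ℕ) < i, (c.2 : ℕ) < rec c.1 h u) ≤ T then
    ⌊κ * ∏ u ∈ H v, phi (ω u) (univ.filter
      fun c : CC k N => ∃ h : (c.1 : ℕ) < i, (c.2 : ℕ) < rec c.1 h u)⌋₊ else 0

/-- preliminary threshold of type `i` -/
noncomputable def a (i : ℕ) (v : V) (ω : V → CC k N) : ℕ :=
  WellFounded.fix (C := fun _ => V → ℕ) (measure (fun n : ℕ => n)).wf
    (fun i rec v => aStep H k N κ T ω i rec v) i v

/-- seeds selected in types below `i` -/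
noncomputable def SA (i : ℕ) (u : V) (ω : V → CC k N) : Finset (CC k N) :=
  univ.filter fun c : CC k N => (c.1 : ℕ) < i ∧ (c.2 : ℕ) < a H k N κ T c.1 u ω

noncomputable def WA (i : ℕ) (v : V) (ω : V → CC k N) : ℝ :=
  ∏ u ∈ H v, phi (ω u) (SA H k N κ T i u ω)

lemma a_eq (i : ℕ) (v : V) (ω : V → CC k N) :
    a H k N κ T i v ω = if WA H k N κ T i v ω ≤ T then ⌊κ * WA H k N κ T i v ω⌋₊ else 0 := by
  unfold a
  rw [WellFounded.fix_eq]
  unfold aStep
  simp only [exists_prop]
  rfl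

/-- one step of the recursion for the final thresholds -/
noncomputable def bStep (ω : V → CC k N) (i : ℕ) (rec : ∀ j, k - j < k - i → V → ℕ) (v : V) : ℕ :=
  if ⌊κ * F i * ∏ u ∈ H v, phi (ω u) (univ.filter fun c : CC k N =>
      ((c.1 : ℕ) ≤ i ∧ (c.2 : ℕ) < a H k N κ T c.1 u ω) ∨
      (∃ h : i < (c.1 : ℕ), (c.2 : ℕ) < rec c.1 (by have := c.1.2; omega) u))⌋₊
        ≤ a H k N κ T i v ω then
    ⌊κ * F i * ∏ u ∈ H v, phi (ω u) (univ.filter fun c : CC k N =>
      ((c.1 : ℕ) ≤ i ∧ (c.2 : ℕ) < a H k N κ T c.1 u ω) ∨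
      (∃ h : i < (c.1 : ℕ), (c.2 : ℕ) < rec c.1 (by have := c.1.2; omega) u))⌋₊ else 0

/-- final threshold of type `i` -/
noncomputable def b (i : ℕ) (v : V) (ω : V → CC k N) : ℕ :=
  WellFounded.fix (C := fun _ => V → ℕ) (measure (fun n : ℕ => k - n)).wf
    (fun i rec v => bStep H k N κ T F ω i rec v) i v

/-- seeds selected in the table mixed at `i` -/
noncomputable def SB (i : ℕ) (u : V) (ω : V → CC k N) : Finset (CC k N) :=
  univ.filter fun c : CC k N => ((c.1 : ℕ) ≤ i ∧ (c.2 : ℕ) < a H k N κ T c.1 u ω) ∨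
      (i < (c.1 : ℕ) ∧ (c.2 : ℕ) < b H k N κ T F c.1 u ω)

noncomputable def YB (i : ℕ) (v : V) (ω : V → CC k N) : ℝ :=
  ∏ u ∈ H v, phi (ω u) (SB H k N κ T F i u ω)

lemma b_eq (i : ℕ) (v : V) (ω : V → CC k N) :
    b H k N κ T F i v ω = if ⌊κ * F i * YB H k N κ T F i v ω⌋₊ ≤ a H k N κ T i v ω then
      ⌊κ * F i * YB H k N κ T F i v ω⌋₊ else 0 := by
  unfold b
  rw [WellFounded.fix_eq]
  unfold bStep
  simp only [exists_prop]
  rfl

lemma b_le_a (i : ℕ) (v : V) (ω : V → CC k N) :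
    b H k N κ T F i v ω ≤ a H k N κ T i v ω := by
  rw [b_eq]
  split_ifs with h
  · exact h
  · exact Nat.zero_le _

lemma WA_nonneg (i : ℕ) (v : V) (ω : V → CC k N) : 0 ≤ WA H k N κ T i v ω :=
  Finset.prod_nonneg fun _ _ => phi_nonneg _ _

lemma YB_nonneg (i : ℕ) (v : V) (ω : V → CC k N) : 0 ≤ YB H k N κ T F i v ω :=
  Finset.prod_nonneg fun _ _ => phi_nonneg _ _

lemma a_le (hκ : 0 ≤ κ) (i : ℕ) (v : V) (ω : V → CC k N) :
    (a H k N κ T i v ω : ℝ) ≤ κ * WA H k N κ T i v ω := by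
  rw [a_eq]
  have h0 : 0 ≤ κ * WA H k N κ T i v ω := mul_nonneg hκ (WA_nonneg H k N κ T i v ω)
  split_ifs with h
  · exact Nat.floor_le h0
  · simpa using h0

lemma a_le' (hκ : 0 ≤ κ) (hT : 0 ≤ T) (i : ℕ) (v : V) (ω : V → CC k N) :
    (a H k N κ T i v ω : ℝ) ≤ κ * T := by
  rw [a_eq]
  have h0 : 0 ≤ κ * WA H k N κ T i v ω := mul_nonneg hκ (WA_nonneg H k N κ T i v ω)
  split_ifs with h
  · exact (Nat.floor_le h0).trans (mul_le_mul_of_nonneg_left h hκ)
  · simpa using mul_nonneg hκ hT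

lemma b_le (hκ : 0 ≤ κ) (hF : ∀ i, 0 ≤ F i) (i : ℕ) (v : V) (ω : V → CC k N) :
    (b H k N κ T F i v ω : ℝ) ≤ κ * F i * YB H k N κ T F i v ω := by
  rw [b_eq]
  have h0 : 0 ≤ κ * F i * YB H k N κ T F i v ω :=
    mul_nonneg (mul_nonneg hκ (hF i)) (YB_nonneg H k N κ T F i v ω)
  split_ifs with h
  · exact Nat.floor_le h0
  · simpa using h0

/-- a good point: no cap is active, the final threshold is the full one -/
lemma b_ge (hκ : 0 ≤ κ) (i : ℕ) (v : V) (ω : V → CC k N)
    (h1 : WA H k N κ T i v ω ≤ T) (h2 : F i * YB H k N κ T F i v ω ≤ WA H k N κ T i v ω) :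
    κ * F i * YB H k N κ T F i v ω - 1 ≤ b H k N κ T F i v ω := by
  rw [b_eq, a_eq, if_pos h1]
  have h3 : ⌊κ * F i * YB H k N κ T F i v ω⌋₊ ≤ ⌊κ * WA H k N κ T i v ω⌋₊ := by
    apply Nat.floor_mono
    rw [mul_assoc]
    exact mul_le_mul_of_nonneg_left h2 hκ
  rw [if_pos h3]
  have := Nat.lt_floor_add_one (κ * F i * YB H k N κ T F i v ω)
  linarith

/-- members of the random set -/
def InJ (v : V) (ω : V → CC k N) : Prop :=
  ((ω v).2 : ℕ) < b H k N κ T F (ω v).1 v ω

lemma InJ_indep {v u : V} {ω : V → CC k N} (hu : u ∈ H v) (h1 : InJ H k N κ T F v ω)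
    (h2 : InJ H k N κ T F u ω) : False := by
  unfold InJ at h1 h2
  have hpos : 0 < b H k N κ T F (ω v).1 v ω := by omega
  rw [b_eq] at hpos
  have h3 : YB H k N κ T F (ω v).1 v ω ≠ 0 := by
    intro h0
    rw [h0] at hpos
    simp at hpos
  unfold YB at h3
  rw [Finset.prod_ne_zero_iff] at h3
  have h4 := h3 u hu
  unfold phi at h4
  split_ifs at h4 with h5
  · exact h4 rfl
  · apply h5
    unfold SB
    rw [Finset.mem_filter]
    refine ⟨Finset.mem_univ _, ?_⟩
    by_cases h6 : ((ω u).1 : ℕ) ≤ (ω v).1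
    · left
      exact ⟨h6, lt_of_lt_of_le h2 (b_le_a H k N κ T F _ _ _)⟩
    · right
      exact ⟨by omega, h2⟩

/-- history of depth `n` -/
noncomputable def D : ℕ → V → Finset V
  | 0, _ => ∅
  | n + 1, v => H v ∪ (H v).biUnion (fun u => D n u)

lemma D_mono (n : ℕ) (v : V) : D H n v ⊆ D H (n + 1) v := by
  induction n generalizing v with
  | zero => simp [D]
  | succ n ih =>
    rw [D, D]
    apply Finset.union_subset_union (Finset.Subset.refl _)
    exact Finset.biUnion_mono (fun u _ => ih u)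

lemma D_mono' {m n : ℕ} (h : m ≤ n) (v : V) : D H m v ⊆ D H n v := by
  induction h with
  | refl => exact Finset.Subset.refl _
  | step _ ih => exact ih.trans (D_mono H _ v)

lemma H_subset_D (n : ℕ) (v : V) : H v ⊆ D H (n + 1) v := by
  rw [D]; exact Finset.subset_union_left

lemma D_subset_D {n : ℕ} {u v : V} (hu : u ∈ H v) : D H n u ⊆ D H (n + 1) v := by
  rw [D]
  exact (Finset.subset_biUnion_of_mem (fun u => D H n u) hu).trans Finset.subset_union_right

lemma a_dep (i : ℕ) (v : V) (ω ω' : V → CC k N) (h : ∀ u ∈ D H (i + 1) v, ω u = ω' u) :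
    a H k N κ T i v ω = a H k N κ T i v ω' := by
  induction i using Nat.strong_induction_on generalizing v with
  | _ i ih =>
    have hW : WA H k N κ T i v ω = WA H k N κ T i v ω' := by
      unfold WA
      refine Finset.prod_congr rfl fun u hu => ?_
      rw [h u (H_subset_D H i v hu)]
      congr 1
      unfold SA
      refine Finset.filter_congr fun c _ => ?_
      refine and_congr_right fun hc => ?_
      rw [ih c.1 hc u (fun x hx => h x
        (D_subset_D H hu (D_mono' H (by omega : (c.1 : ℕ) + 1 ≤ i) u hx)))]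
    rw [a_eq, a_eq, hW]

lemma b_dep (i : ℕ) (hi : i < k) (v : V) (ω ω' : V → CC k N)
    (h : ∀ u ∈ D H (2 * k - i) v, ω u = ω' u) :
    b H k N κ T F i v ω = b H k N κ T F i v ω' := by
  induction hm : k - i using Nat.strong_induction_on generalizing i v with
  | _ m ih =>
    have ha : a H k N κ T i v ω = a H k N κ T i v ω' :=
      a_dep H k N κ T i v ω ω' (fun u hu => h u (D_mono' H (by omega) v hu))
    have hY : YB H k N κ T F i v ω = YB H k N κ T F i v ω' := by
      unfold YB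
      refine Finset.prod_congr rfl fun u hu => ?_
      have hDu : D H (2 * k - i - 1) u ⊆ D H (2 * k - i) v := by
        have := D_subset_D H (n := 2 * k - i - 1) hu
        rwa [show 2 * k - i - 1 + 1 = 2 * k - i by omega] at this
      have hHu : H v ⊆ D H (2 * k - i) v := by
        have := H_subset_D H (2 * k - i - 1) v
        rwa [show 2 * k - i - 1 + 1 = 2 * k - i by omega] at this
      rw [h u (hHu hu)]
      congr 1
      unfold SB
      refine Finset.filter_congr fun c _ => ?_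
      refine or_congr (and_congr_right fun hc => ?_) (and_congr_right fun hc => ?_)
      · rw [a_dep H k N κ T c.1 u ω ω' (fun x hx => h x (hDu (D_mono' H (by omega) u hx)))]
      · have hck := c.1.2
        rw [ih (k - c.1) (by omega) c.1 hck u
          (fun x hx => h x (hDu (D_mono' H (by omega) u hx))) rfl]
    rw [b_eq, b_eq, hY, ha]

lemma InJ_dep (v : V) (ω ω' : V → CC k N) (h0 : ω v = ω' v)
    (h : ∀ u ∈ D H (2 * k) v, ω u = ω' u) :
    InJ H k N κ T F v ω ↔ InJ H k N κ T F v ω' := by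
  unfold InJ
  rw [← h0, b_dep H k N κ T F (ω v).1 (ω v).1.2 v ω ω'
    (fun u hu => h u (D_mono' H (by omega) v hu))]

variable (r : V → ℕ)

lemma D_rank (hr : ∀ v, ∀ u ∈ H v, r u < r v) (n : ℕ) (v : V) : ∀ u ∈ D H n v, r u < r v := by
  induction n generalizing v with
  | zero => simp [D]
  | succ n ih =>
    intro u hu
    rw [D, Finset.mem_union, Finset.mem_biUnion] at hu
    rcases hu with hu | ⟨x, hx, hu⟩
    · exact hr v u hu
    · exact (ih x u hu).trans (hr v x hx)

lemma D_card {d : ℕ} (hd : ∀ v, (H v).card ≤ d) (n : ℕ) (v : V) :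
    (D H n v).card + 1 ≤ (d + 1) ^ n := by
  induction n generalizing v with
  | zero => simp [D]
  | succ n ih =>
    have h1 : (D H (n + 1) v).card ≤ d + d * ((d + 1) ^ n - 1) := by
      rw [D]
      refine (Finset.card_union_le _ _).trans (Nat.add_le_add (hd v) ?_)
      refine (Finset.card_biUnion_le).trans ?_
      calc ∑ u ∈ H v, (D H n u).card ≤ ∑ u ∈ H v, ((d + 1) ^ n - 1) :=
            Finset.sum_le_sum fun u _ => by have := ih u; omega
        _ = (H v).card * ((d + 1) ^ n - 1) := by rw [Finset.sum_const, smul_eq_mul]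
        _ ≤ d * ((d + 1) ^ n - 1) := Nat.mul_le_mul_right _ (hd v)
    have h2 : 1 ≤ (d + 1) ^ n := Nat.one_le_pow _ _ (by omega)
    obtain ⟨e, he⟩ := Nat.exists_eq_add_of_le h2
    rw [he] at h1
    rw [pow_succ, he]
    have : 1 + e - 1 = e := by omega
    rw [this] at h1
    nlinarith

lemma D_rev {Δ : ℕ} (hΔ : ∀ z, (univ.filter fun w => z ∈ H w).card ≤ Δ) (n : ℕ) (z : V) :
    (univ.filter fun w => z ∈ D H n w).card + 1 ≤ (Δ + 1) ^ n := by
  induction n generalizing z with
  | zero => simp [D]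
  | succ n ih =>
    have hsub : (univ.filter fun w => z ∈ D H (n + 1) w) ⊆
        (univ.filter fun w => z ∈ H w) ∪
          (univ.filter fun u => z ∈ D H n u).biUnion (fun u => univ.filter fun w => u ∈ H w) := by
      intro w hw
      rw [Finset.mem_filter, D, Finset.mem_union, Finset.mem_biUnion] at hw
      rw [Finset.mem_union, Finset.mem_biUnion, Finset.mem_filter]
      rcases hw.2 with h | ⟨u, hu, hz⟩
      · left; exact ⟨Finset.mem_univ _, h⟩
      · right
        exact ⟨u, by rw [Finset.mem_filter]; exact ⟨Finset.mem_univ _, hz⟩,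
          by rw [Finset.mem_filter]; exact ⟨Finset.mem_univ _, hu⟩⟩
    have h1 : (univ.filter fun w => z ∈ D H (n + 1) w).card ≤
        Δ + ((Δ + 1) ^ n - 1) * Δ := by
      refine (Finset.card_le_card hsub).trans ?_
      refine (Finset.card_union_le _ _).trans (Nat.add_le_add (hΔ z) ?_)
      refine (Finset.card_biUnion_le).trans ?_
      calc ∑ u ∈ univ.filter (fun u => z ∈ D H n u), (univ.filter fun w => u ∈ H w).card
          ≤ ∑ u ∈ univ.filter (fun u => z ∈ D H n u), Δ := Finset.sum_le_sum fun u _ => hΔ u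
        _ = (univ.filter fun u => z ∈ D H n u).card * Δ := by rw [Finset.sum_const, smul_eq_mul]
        _ ≤ ((Δ + 1) ^ n - 1) * Δ := Nat.mul_le_mul_right _ (by have := ih z; omega)
    have h2 : 1 ≤ (Δ + 1) ^ n := Nat.one_le_pow _ _ (by omega)
    obtain ⟨e, he⟩ := Nat.exists_eq_add_of_le h2
    rw [he] at h1
    rw [pow_succ, he]
    have : 1 + e - 1 = e := by omega
    rw [this] at h1
    nlinarith

lemma a_adapt (hr : ∀ v, ∀ u ∈ H v, r u < r v) (i : ℕ) (v : V) (ω ω' : V → CC k N)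
    (h : ∀ u, r u < r v → ω u = ω' u) : a H k N κ T i v ω = a H k N κ T i v ω' :=
  a_dep H k N κ T i v ω ω' (fun u hu => h u (D_rank H r hr _ v u hu))

lemma b_adapt (hr : ∀ v, ∀ u ∈ H v, r u < r v) (i : ℕ) (hi : i < k) (v : V) (ω ω' : V → CC k N)
    (h : ∀ u, r u < r v → ω u = ω' u) : b H k N κ T F i v ω = b H k N κ T F i v ω' :=
  b_dep H k N κ T F i hi v ω ω' (fun u hu => h u (D_rank H r hr _ v u hu))

lemma SA_adapt (hr : ∀ v, ∀ u ∈ H v, r u < r v) (i : ℕ) (v : V) (ω ω' : V → CC k N)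
    (h : ∀ u, r u < r v → ω u = ω' u) : SA H k N κ T i v ω = SA H k N κ T i v ω' := by
  unfold SA
  refine Finset.filter_congr fun c _ => ?_
  rw [a_adapt H k N κ T r hr c.1 v ω ω' h]

lemma SB_adapt (hr : ∀ v, ∀ u ∈ H v, r u < r v) (i : ℕ) (v : V) (ω ω' : V → CC k N)
    (h : ∀ u, r u < r v → ω u = ω' u) : SB H k N κ T F i v ω = SB H k N κ T F i v ω' := by
  unfold SB
  refine Finset.filter_congr fun c _ => ?_
  rw [a_adapt H k N κ T r hr c.1 v ω ω' h, b_adapt H k N κ T F r hr c.1 c.1.2 v ω ω' h]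

end Pool.Agent.TH447.DG
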